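import Mathlib

/-!
# Rankin's trick

The number of `m ≤ X` all of whose primes outside `K` multiply to at most `Y` is at most
`C_η * Y * (X * Y * K) ^ η`.
-/

namespace Pool.Agent.Helper5Frey

open Finset

/-- The completely multiplicative function `m ↦ m ^ (-η)`. -/
noncomputable def powHom (η : ℝ) : ℕ →* ℝ where
  toFun m := (m : ℝ) ^ (-η)
  map_one' := by simp
  map_mul' a b := by
    push_cast
    rw [Real.mul_rpow (Nat.cast_nonneg a) (Nat.cast_nonneg b)]

lemma powHom_apply (η : ℝ) (m : ℕ) : powHom η m = (m : ℝ) ^ (-η) := rfl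

lemma powHom_nonneg (η : ℝ) (m : ℕ) : 0 ≤ powHom η m := by
  rw [powHom_apply]
  positivity

lemma powHom_lt_one {η : ℝ} (hη : 0 < η) {p : ℕ} (hp : p.Prime) : powHom η p < 1 := by
  rw [powHom_apply]
  exact Real.rpow_lt_one_of_one_lt_of_neg (by exact_mod_cast hp.one_lt) (by linarith)

/-- Rankin bound for smooth numbers. -/
theorem rankin_smooth_prod {η : ℝ} (hη : 0 < η) (X D : ℕ) :
    (((Finset.Icc 1 X).filter (fun m => m.primeFactors ⊆ D.primeFactors)).card : ℝ) ≤
      (X : ℝ) ^ η * ∏ p ∈ D.primeFactors, (1 - powHom η p)⁻¹ := by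
  classical
  have hlt : ∀ {p : ℕ}, p.Prime → ‖powHom η p‖ < 1 := by
    intro p hp
    rw [Real.norm_eq_abs, abs_of_nonneg (powHom_nonneg η p)]
    exact powHom_lt_one hη hp
  obtain ⟨hs, hsum⟩ :=
    EulerProduct.summable_and_hasSum_factoredNumbers_prod_filter_prime_geometric
      (f := powHom η) hlt D.primeFactors
  have hfil : D.primeFactors.filter Nat.Prime = D.primeFactors := by
    apply Finset.filter_true_of_mem
    intro p hp
    exact Nat.prime_of_mem_primeFactors hp
  rw [hfil] at hsum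
  set T := (Finset.Icc 1 X).filter (fun m => m.primeFactors ⊆ D.primeFactors) with hT
  have hmem : ∀ m ∈ T, m ∈ Nat.factoredNumbers D.primeFactors := by
    intro m hm
    rw [hT, Finset.mem_filter, Finset.mem_Icc] at hm
    rw [Nat.mem_factoredNumbers]
    refine ⟨by omega, ?_⟩
    intro p hp
    apply hm.2
    rw [Nat.mem_primeFactors_iff_mem_primeFactorsList]
    exact hp
  have h1 : ∑ m ∈ T, powHom η m ≤ ∏ p ∈ D.primeFactors, (1 - powHom η p)⁻¹ := by
    have h2 : ∑ m ∈ T, powHom η m = ∑ m ∈ T.attach.map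
        ⟨fun m : {x // x ∈ T} => (⟨m.1, hmem m.1 m.2⟩ : Nat.factoredNumbers D.primeFactors),
          fun a b h => by
            apply Subtype.ext
            simpa using h⟩, powHom η m := by
      rw [Finset.sum_map]
      exact (Finset.sum_attach T (fun m => powHom η m)).symm
    rw [h2]
    exact sum_le_hasSum _ (fun m _ => powHom_nonneg η m) hsum
  have h3 : ∀ m ∈ T, 1 ≤ (X : ℝ) ^ η * powHom η m := by
    intro m hm
    rw [hT, Finset.mem_filter, Finset.mem_Icc] at hm
    have hm1 : (0 : ℝ) < m := by exact_mod_cast hm.1.1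
    have hmX : (m : ℝ) ≤ X := by exact_mod_cast hm.1.2
    rw [powHom_apply, Real.rpow_neg hm1.le, ← div_eq_mul_inv, one_le_div (by positivity)]
    exact Real.rpow_le_rpow hm1.le hmX hη.le
  calc (T.card : ℝ) = ∑ m ∈ T, (1 : ℝ) := by simp
    _ ≤ ∑ m ∈ T, (X : ℝ) ^ η * powHom η m := Finset.sum_le_sum h3
    _ = (X : ℝ) ^ η * ∑ m ∈ T, powHom η m := by rw [Finset.mul_sum]
    _ ≤ _ := by gcongr

/-- The Euler product over the primes of `D` is at most `C_η * D ^ η`. -/
theorem euler_prod_le {η : ℝ} (hη : 0 < η) : ∃ C : ℝ, 0 < C ∧ ∀ D : ℕ, 1 ≤ D →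
    ∏ p ∈ D.primeFactors, (1 - powHom η p)⁻¹ ≤ C * (D : ℝ) ^ η := by
  classical
  set A : ℝ := (1 - powHom η 2)⁻¹ with hA
  have h2 : powHom η 2 < 1 := powHom_lt_one hη Nat.prime_two
  have hA1 : 1 ≤ A := by
    rw [hA]
    exact one_le_inv₀ (by linarith) |>.mpr (by linarith [powHom_nonneg η 2])
  set N : ℕ := ⌈(2 : ℝ) ^ (1 / η)⌉₊ with hN
  refine ⟨A ^ N, by positivity, ?_⟩
  intro D hD
  have key : ∀ p ∈ D.primeFactors, (1 - powHom η p)⁻¹ ≤
      (if p < N then A else 1) * (p : ℝ) ^ η := by
    intro p hp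
    have hpp := Nat.prime_of_mem_primeFactors hp
    have hp1 : (1 : ℝ) ≤ (p : ℝ) ^ η := by
      apply Real.one_le_rpow _ hη.le
      exact_mod_cast hpp.one_lt.le
    have hplt := powHom_lt_one hη hpp
    split_ifs with h
    · have : (1 - powHom η p)⁻¹ ≤ A := by
        rw [hA]
        apply inv_anti₀ (by linarith)
        have : powHom η p ≤ powHom η 2 := by
          rw [powHom_apply, powHom_apply]
          exact Real.rpow_le_rpow_of_nonpos (by norm_num) (by exact_mod_cast hpp.two_le)
            (by linarith)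
        linarith
      calc (1 - powHom η p)⁻¹ ≤ A := this
        _ = A * 1 := by ring
        _ ≤ A * (p : ℝ) ^ η := by gcongr
    · rw [one_mul]
      have hpN : (2 : ℝ) ^ (1 / η) ≤ p := by
        calc (2 : ℝ) ^ (1 / η) ≤ N := Nat.le_ceil _
          _ ≤ p := by exact_mod_cast not_lt.mp h
      have hp2 : (2 : ℝ) ≤ (p : ℝ) ^ η := by
        have := Real.rpow_le_rpow (by positivity) hpN hη.le
        rwa [← Real.rpow_mul (by norm_num), one_div_mul_cancel hη.ne', Real.rpow_one] at this
      have hpow : powHom η p = ((p : ℝ) ^ η)⁻¹ := by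
        rw [powHom_apply, Real.rpow_neg (Nat.cast_nonneg p)]
      rw [hpow]
      set x := (p : ℝ) ^ η
      have hx : (0 : ℝ) < x := by linarith
      have : (1 - x⁻¹)⁻¹ = x / (x - 1) := by
        have : x - 1 ≠ 0 := by linarith
        field_simp
      rw [this, div_le_iff₀ (by linarith)]
      nlinarith
  calc ∏ p ∈ D.primeFactors, (1 - powHom η p)⁻¹
      ≤ ∏ p ∈ D.primeFactors, ((if p < N then A else 1) * (p : ℝ) ^ η) := by
        apply Finset.prod_le_prod
        · intro p hp
          have := powHom_lt_one hη (Nat.prime_of_mem_primeFactors hp)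
          exact inv_nonneg.mpr (by linarith)
        · exact key
    _ = (∏ p ∈ D.primeFactors, (if p < N then A else 1)) *
        ∏ p ∈ D.primeFactors, (p : ℝ) ^ η := Finset.prod_mul_distrib
    _ ≤ A ^ N * (D : ℝ) ^ η := by
        apply mul_le_mul
        · rw [Finset.prod_ite]
          simp only [Finset.prod_const, mul_one, one_pow]
          apply pow_le_pow_right₀ hA1
          calc (D.primeFactors.filter (fun p => p < N)).card ≤ (Finset.range N).card := by
                apply Finset.card_le_card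
                intro p hp
                rw [Finset.mem_filter] at hp
                exact Finset.mem_range.mpr hp.2
            _ = N := Finset.card_range N
        · rw [Real.finsetProd_rpow _ _ (fun i _ => Nat.cast_nonneg i)]
          apply Real.rpow_le_rpow
          · positivity
          · have : (∏ p ∈ D.primeFactors, p) ≤ D :=
              Nat.le_of_dvd (by omega) (Nat.prod_primeFactors_dvd D)
            calc ∏ i ∈ D.primeFactors, (i : ℝ) = ((∏ p ∈ D.primeFactors, p : ℕ) : ℝ) := by
                  push_cast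
                  rfl
              _ ≤ D := by exact_mod_cast this
          · exact hη.le
        · apply Finset.prod_nonneg
          intro p _
          positivity
        · positivity

/-- Number of `m ≤ X` with all primes dividing `D`. -/
theorem rankin_smooth {η : ℝ} (hη : 0 < η) : ∃ C : ℝ, 0 < C ∧ ∀ X D : ℕ, 1 ≤ D →
    (((Finset.Icc 1 X).filter (fun m => m.primeFactors ⊆ D.primeFactors)).card : ℝ) ≤
      C * ((X : ℝ) * D) ^ η := by
  obtain ⟨C, hC, h⟩ := euler_prod_le hη
  refine ⟨C, hC, ?_⟩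
  intro X D hD
  calc _ ≤ (X : ℝ) ^ η * ∏ p ∈ D.primeFactors, (1 - powHom η p)⁻¹ := rankin_smooth_prod hη X D
    _ ≤ (X : ℝ) ^ η * (C * (D : ℝ) ^ η) := by
        gcongr
        exact h D hD
    _ = C * ((X : ℝ) * D) ^ η := by
        rw [Real.mul_rpow (Nat.cast_nonneg X) (Nat.cast_nonneg D)]
        ring

/-- The product of the primes dividing `m` but not `K`. -/
def partRad (K m : ℕ) : ℕ := ∏ p ∈ m.primeFactors.filter (fun p => ¬ p ∣ K), p

lemma partRad_pos (K m : ℕ) : 0 < partRad K m := by
  apply Finset.prod_pos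
  intro p hp
  exact (Nat.prime_of_mem_primeFactors (Finset.mem_filter.mp hp).1).pos

/-- **Rankin**: few integers have a small radical outside `K`. -/
theorem rankin_count {η : ℝ} (hη : 0 < η) : ∃ C : ℝ, 0 < C ∧ ∀ X K : ℕ, 1 ≤ K → ∀ Y : ℝ, 1 ≤ Y →
    (((Finset.Icc 1 X).filter (fun m => (partRad K m : ℝ) ≤ Y)).card : ℝ) ≤
      C * Y * ((X : ℝ) * Y * K) ^ η := by
  classical
  obtain ⟨C, hC, h⟩ := rankin_smooth hη
  refine ⟨C, hC, ?_⟩
  intro X K hK Y hY
  have hsub : (Finset.Icc 1 X).filter (fun m => (partRad K m : ℝ) ≤ Y) ⊆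
      (Finset.Icc 1 ⌊Y⌋₊).biUnion (fun d => (Finset.Icc 1 X).filter
        (fun m => m.primeFactors ⊆ (d * K).primeFactors)) := by
    intro m hm
    rw [Finset.mem_filter] at hm
    rw [Finset.mem_biUnion]
    refine ⟨partRad K m, ?_, ?_⟩
    · rw [Finset.mem_Icc]
      exact ⟨partRad_pos K m, Nat.le_floor hm.2⟩
    · rw [Finset.mem_filter]
      refine ⟨hm.1, ?_⟩
      intro p hp
      have hpp := Nat.prime_of_mem_primeFactors hp
      rw [Nat.mem_primeFactors]
      refine ⟨hpp, ?_, ?_⟩
      · by_cases hpK : p ∣ K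
        · exact Dvd.dvd.mul_left hpK _
        · apply Dvd.dvd.mul_right
          apply Finset.dvd_prod_of_mem (fun p => p)
          exact Finset.mem_filter.mpr ⟨hp, hpK⟩
      · have := partRad_pos K m
        positivity
  have hY0 : 0 < Y := by linarith
  calc (((Finset.Icc 1 X).filter (fun m => (partRad K m : ℝ) ≤ Y)).card : ℝ)
      ≤ (((Finset.Icc 1 ⌊Y⌋₊).biUnion (fun d => (Finset.Icc 1 X).filter
        (fun m => m.primeFactors ⊆ (d * K).primeFactors))).card : ℝ) := by
        exact_mod_cast Finset.card_le_card hsub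
    _ ≤ ∑ d ∈ Finset.Icc 1 ⌊Y⌋₊, (((Finset.Icc 1 X).filter
        (fun m => m.primeFactors ⊆ (d * K).primeFactors)).card : ℝ) := by
        exact_mod_cast Finset.card_biUnion_le
    _ ≤ ∑ d ∈ Finset.Icc 1 ⌊Y⌋₊, C * ((X : ℝ) * Y * K) ^ η := by
        apply Finset.sum_le_sum
        intro d hd
        rw [Finset.mem_Icc] at hd
        have hdY : (d : ℝ) ≤ Y := (Nat.le_floor_iff hY0.le).mp hd.2
        have hdK : 1 ≤ d * K := Nat.mul_pos hd.1 hK
        refine (h X (d * K) hdK).trans ?_
        apply mul_le_mul_of_nonneg_left _ hC.le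
        apply Real.rpow_le_rpow (by positivity) _ hη.le
        push_cast
        calc (X : ℝ) * (d * K) = X * d * K := by ring
          _ ≤ X * Y * K := by gcongr
    _ = (⌊Y⌋₊ : ℝ) * (C * ((X : ℝ) * Y * K) ^ η) := by simp
    _ ≤ Y * (C * ((X : ℝ) * Y * K) ^ η) := by
        apply mul_le_mul_of_nonneg_right (Nat.floor_le hY0.le) (by positivity)
    _ = C * Y * ((X : ℝ) * Y * K) ^ η := by ring

end Pool.Agent.Helper5Frey
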