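import Pool.Agent.Helper5_Frey.Gen
import Pool.Agent.Helper5_Frey.Rankin

/-!
# Primes where the reduction has exactly one double root
-/

namespace Pool.Agent.Helper5Frey

open Polynomial

variable {m : ℕ}

lemma poly_eq (a : Fin (m + 2) → ℤ) :
    poly a = f0 (fun i : Fin (m + 1) => a i.succ) + C (a 0) := by
  unfold poly f0
  rw [Fin.sum_univ_succ]
  simp
  ring

lemma poly_cons (b : Fin (m + 1) → ℤ) (c : ℤ) :
    poly (Fin.cons c b : Fin (m + 2) → ℤ) = f0 b + C c := by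
  rw [poly_eq]
  simp

lemma natDegree_f0_add (b : Fin (m + 1) → ℤ) (c : ℤ) (hb : b (Fin.last m) ≠ 0) :
    (f0 b + C c).natDegree = m + 1 := by
  apply le_antisymm (f0_add_natDegree_le b c)
  apply le_natDegree_of_ne_zero
  rwa [f0_add_coeff_last]

lemma leadingCoeff_f0_add (b : Fin (m + 1) → ℤ) (c : ℤ) (hb : b (Fin.last m) ≠ 0) :
    (f0 b + C c).leadingCoeff = b (Fin.last m) := by
  rw [leadingCoeff, natDegree_f0_add b c hb, f0_add_coeff_last]

lemma RT_eval_cast {K : Type*} [Field K] (b : Fin (m + 1) → ℤ) (c : ℤ) :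
    (((RT b).eval c : ℤ) : K) = (RT (fun i => ((b i : ℤ) : K))).eval (c : K) := by
  have h := RT_map (Int.castRingHom K) b
  simp only [eq_intCast] at h
  rw [← h, eval_map]
  have := eval₂_at_apply (p := RT b) (Int.castRingHom K) c
  simp

lemma f0_add_map {K : Type*} [Field K] (b : Fin (m + 1) → ℤ) (c : ℤ) :
    (f0 b + C c).map (Int.castRingHom K) = f0 (fun i => ((b i : ℤ) : K)) + C (c : K) := by
  rw [Polynomial.map_add, f0_map, map_C]
  simp

lemma ncard_roots {K : Type*} [Field K] [DecidableEq K] (f : ℤ[X])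
    (hf : f.map (Int.castRingHom K) ≠ 0) :
    {x : K | eval₂ (Int.castRingHom K) x f = 0}.ncard = (f.map (Int.castRingHom K)).roots.toFinset.card := by
  rw [← Set.ncard_coe_finset]
  congr 1
  ext x
  rw [Finset.mem_coe, Multiset.mem_toFinset, mem_roots hf, Set.mem_ofPred_eq, IsRoot.def,
    eval_map]

lemma map_ne_zero_of_not_dvd (b : Fin (m + 1) → ℤ) (c : ℤ) {p : ℕ} [Fact p.Prime]
    {K : Type*} [Field K] [CharP K p] (hb : ¬ (p : ℤ) ∣ b (Fin.last m)) :
    (f0 b + C c).map (Int.castRingHom K) ≠ 0 := by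
  intro h
  rw [f0_add_map] at h
  have := f0_add_coeff_last (fun i => ((b i : ℤ) : K)) (c : K)
  rw [h, coeff_zero] at this
  exact hb ((CharP.intCast_eq_zero_iff K p _).mp this.symm)

/-- Primes dividing `R(c)` but not `M` are node primes. -/
theorem mem_nodePrimes (b : Fin (m + 1) → ℤ) (hm : m ≠ 0) (c : ℤ) {p : ℕ} (hp : p.Prime)
    (hM : ¬ (p : ℤ) ∣ Mv b) (hR : (p : ℤ) ∣ (RT b).eval c) : p ∈ nodePrimes (f0 b + C c) := by
  classical
  have : Fact p.Prime := ⟨hp⟩
  have hb0 : b (Fin.last m) ≠ 0 := by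
    intro h0
    apply hM
    simp [Mv, h0]
  have h2 : ¬ (p : ℤ) ∣ 2 := fun h => hM (by
    unfold Mv
    exact Dvd.dvd.mul_right (Dvd.dvd.mul_right (Dvd.dvd.mul_right h _) _) _)
  have hn : ¬ (p : ℤ) ∣ ((m + 1 : ℕ) : ℤ) := fun h => hM (by
    unfold Mv
    exact Dvd.dvd.mul_right (Dvd.dvd.mul_right (Dvd.dvd.mul_left h _) _) _)
  have hb : ¬ (p : ℤ) ∣ b (Fin.last m) := fun h => hM (by
    unfold Mv
    exact Dvd.dvd.mul_right (Dvd.dvd.mul_left h _) _)
  have hD : ¬ (p : ℤ) ∣ D2 b := fun h => hM (by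
    unfold Mv
    exact Dvd.dvd.mul_left h _)
  refine ⟨hp, ?_, ?_, ?_⟩
  · intro h
    apply h2
    rw [h]
    norm_num
  · rwa [leadingCoeff_f0_add b c hb0]
  · set K := AlgebraicClosure (ZMod p)
    rw [ncard_roots (K := K) _ (map_ne_zero_of_not_dvd b c hb), f0_add_map,
      natDegree_f0_add b c hb0]
    have e1 : ((m + 1 : ℕ) : K) * ((b (Fin.last m) : ℤ) : K) ≠ 0 := by
      apply mul_ne_zero
      · intro h
        apply hn
        rw [← CharP.intCast_eq_zero_iff K p]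
        exact_mod_cast h
      · intro h
        exact hb ((CharP.intCast_eq_zero_iff K p _).mp h)
    have e2 : D2 (fun i => ((b i : ℤ) : K)) ≠ 0 := by
      intro h
      apply hD
      rw [← CharP.intCast_eq_zero_iff K p, ← h]
      have := D2_map (Int.castRingHom K) b
      simpa using this
    have e3 : (RT (fun i => ((b i : ℤ) : K))).eval (c : K) = 0 := by
      rw [← RT_eval_cast, CharP.intCast_eq_zero_iff K p]
      exact hR
    have := card_roots_eq (fun i => ((b i : ℤ) : K)) hm e1 e2 (c : K) e3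
    rw [this]
    omega

/-- Node primes divide `R(c)`. -/
theorem dvd_of_mem_nodePrimes (b : Fin (m + 1) → ℤ) (c : ℤ) (hb0 : b (Fin.last m) ≠ 0) {p : ℕ}
    (hp : p ∈ nodePrimes (f0 b + C c)) : (p : ℤ) ∣ (RT b).eval c := by
  classical
  obtain ⟨hpp, _, hlc, hcard⟩ := hp
  have : Fact p.Prime := ⟨hpp⟩
  rw [leadingCoeff_f0_add b c hb0] at hlc
  set K := AlgebraicClosure (ZMod p)
  rw [ncard_roots (K := K) _ (map_ne_zero_of_not_dvd b c hlc), f0_add_map,
      natDegree_f0_add b c hb0] at hcard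
  rw [← CharP.intCast_eq_zero_iff K p, RT_eval_cast]
  apply RT_eval_eq_zero_of_card
  · intro h
    exact hlc ((CharP.intCast_eq_zero_iff K p _).mp h)
  · rw [hcard]
    omega

/-- `R(c) ≠ 0` implies that `f` is separable. -/
theorem separable_of_RT_ne_zero (b : Fin (m + 1) → ℤ) (c : ℤ) (h : (RT b).eval c ≠ 0) :
    ((f0 b + C c).map (Int.castRingHom ℚ)).Separable := by
  obtain ⟨p, q, hpq⟩ := RT_bezout b c
  have h1 := congrArg (Polynomial.map (Int.castRingHom ℚ)) hpq
  rw [Polynomial.map_add, Polynomial.map_mul, Polynomial.map_mul, map_C] at h1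
  have hu : (((RT b).eval c : ℤ) : ℚ) ≠ 0 := by exact_mod_cast h
  have h2 : C (((RT b).eval c : ℤ) : ℚ)⁻¹ * C ((Int.castRingHom ℚ) ((RT b).eval c)) = 1 := by
    rw [← C_mul, eq_intCast, inv_mul_cancel₀ hu, C_1]
  refine ⟨C (((RT b).eval c : ℤ) : ℚ)⁻¹ * q.map (Int.castRingHom ℚ),
    C (((RT b).eval c : ℤ) : ℚ)⁻¹ * p.map (Int.castRingHom ℚ), ?_⟩
  rw [← h2, ← h1, derivative_map]
  ring

/-- Separable polynomials have `R(c) ≠ 0`. -/
theorem RT_ne_zero_of_separable (b : Fin (m + 1) → ℤ) (c : ℤ) (hb : b (Fin.last m) ≠ 0)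
    (h : ((f0 b + C c).map (Int.castRingHom ℚ)).Separable) : (RT b).eval c ≠ 0 := by
  intro h0
  have h1 : (RT (fun i => ((b i : ℤ) : ℚ))).eval (c : ℚ) = 0 := by
    rw [← RT_eval_cast, h0]
    simp
  rw [f0_add_map] at h
  rw [RT_eval] at h1
  have hlast : ((b (Fin.last m) : ℤ) : ℚ) ≠ 0 := by exact_mod_cast hb
  have hd : (f0 (fun i => ((b i : ℤ) : ℚ)) + C (c : ℚ)).natDegree = m + 1 := by
    apply le_antisymm (f0_add_natDegree_le _ _)
    apply le_natDegree_of_ne_zero
    rwa [f0_add_coeff_last]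
  have hd' : (derivative (f0 (fun i => ((b i : ℤ) : ℚ)))).natDegree = m := by
    apply deriv_natDegree_eq
    apply mul_ne_zero _ hlast
    exact_mod_cast Nat.succ_ne_zero m
  have h2 : resultant (derivative (f0 (fun i => ((b i : ℤ) : ℚ))))
      (f0 (fun i => ((b i : ℤ) : ℚ)) + C (c : ℚ)) = 0 := by
    rw [hd, hd']
    exact h1
  rw [resultant_eq_zero_iff] at h2
  apply h2.2
  have h3 : derivative (f0 (fun i => ((b i : ℤ) : ℚ)) + C (c : ℚ)) =
      derivative (f0 (fun i => ((b i : ℤ) : ℚ))) := by simp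
  have := h.symm
  rwa [h3] at this

lemma nodePrimes_finite (b : Fin (m + 1) → ℤ) (c : ℤ) (hb0 : b (Fin.last m) ≠ 0)
    (hR : (RT b).eval c ≠ 0) : (nodePrimes (f0 b + C c)).Finite := by
  apply Set.Finite.subset (((RT b).eval c).natAbs.divisors : Finset ℕ).finite_toSet
  intro p hp
  rw [Finset.mem_coe, Nat.mem_divisors]
  refine ⟨?_, by simpa using hR⟩
  have := dvd_of_mem_nodePrimes b c hb0 hp
  exact Int.natCast_dvd.mp this

/-- The lower bound for `Nstar`. -/
theorem partRad_le_Nstar (b : Fin (m + 1) → ℤ) (hm : m ≠ 0) (c : ℤ) (hM : Mv b ≠ 0)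
    (hR : (RT b).eval c ≠ 0) :
    partRad (Mv b).natAbs ((RT b).eval c).natAbs ≤ Nstar (f0 b + C c) := by
  have hb0 : b (Fin.last m) ≠ 0 := by
    intro h0
    apply hM
    simp [Mv, h0]
  have hfin := nodePrimes_finite b c hb0 hR
  unfold Nstar partRad
  rw [finprod_mem_eq_finite_toFinset_prod _ hfin]
  apply Finset.prod_le_prod_of_subset_of_one_le'
  · intro p hp
    rw [Finset.mem_filter, Nat.mem_primeFactors] at hp
    rw [Set.Finite.mem_toFinset]
    apply mem_nodePrimes b hm c hp.1.1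
    · intro h
      exact hp.2 (Int.natCast_dvd.mp h)
    · exact Int.natCast_dvd.mpr hp.1.2.1
  · intro p hp _
    rw [Set.Finite.mem_toFinset] at hp
    obtain ⟨hpp, _⟩ := hp
    exact hpp.one_lt.le

end Pool.Agent.Helper5Frey
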