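import Pool.Agent.Helper5_Frey.Integ
import Pool.Agent.Helper5_Frey.Local

/-!
# The period Gram matrix and the upper bound for the height
-/

namespace Pool.Agent.Helper5Frey

open MeasureTheory Metric ComplexConjugate Polynomial Matrix
open scoped ComplexOrder

/-- The quadratic form of the Gram matrix. -/
lemma gram_form (g : ℕ) (f : ℤ[X])
    (hint : ∀ i j : Fin g, Integrable (fun z : ℂ => z ^ (i : ℕ) * conj z ^ (j : ℕ) *
      ((‖(f.map (Int.castRingHom ℂ)).eval z‖⁻¹ : ℝ) : ℂ))) (v : Fin g → ℂ) :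
    star v ⬝ᵥ (gram g f *ᵥ v) = ((1 / 2 * ∫ z : ℂ, ‖∑ i, conj (v i) * z ^ (i : ℕ)‖ ^ 2 *
      ‖(f.map (Int.castRingHom ℂ)).eval z‖⁻¹ : ℝ) : ℂ) := by
  have h1 := form_eq (fun z => ‖(f.map (Int.castRingHom ℂ)).eval z‖⁻¹) hint (fun i => conj (v i))
  push_cast at h1 ⊢
  rw [← h1, dotProduct, Finset.mul_sum]
  apply Finset.sum_congr rfl
  intro i _
  rw [mulVec, dotProduct, Finset.mul_sum, Finset.mul_sum]
  apply Finset.sum_congr rfl
  intro j _
  have h2 : gram g f i j = (1 / 2 : ℂ) * ∫ z : ℂ, z ^ (i : ℕ) * conj z ^ (j : ℕ) *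
      (‖(f.map (Int.castRingHom ℂ)).eval z‖ : ℂ)⁻¹ := by
    unfold gram
    rw [of_apply]
    congr 2
    ext z
    rw [eval_map, div_eq_mul_inv]
  rw [h2]
  simp only [Pi.star_apply, RCLike.star_def, Complex.conj_conj]
  ring

lemma gram_isHermitian (g : ℕ) (f : ℤ[X]) : (gram g f).IsHermitian := by
  ext i j
  unfold gram
  rw [conjTranspose_apply, of_apply, of_apply, RCLike.star_def, map_mul, ← integral_conj]
  congr 1
  · rw [map_div₀, map_one, map_ofNat]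
  · congr 1
    ext z
    simp only [map_div₀, map_mul, map_pow, Complex.conj_conj, Complex.conj_ofReal]
    ring

/-- A Hermitian matrix whose form is at least `lam * ‖v‖ ^ 2` has determinant at least
`lam ^ g`. -/
lemma det_lower {g : ℕ} (A : Matrix (Fin g) (Fin g) ℂ) (hA : A.IsHermitian) (lam : ℝ)
    (hlam : 0 ≤ lam)
    (h : ∀ v : Fin g → ℂ, lam * ∑ i, ‖v i‖ ^ 2 ≤ (star v ⬝ᵥ (A *ᵥ v)).re) :
    lam ^ g ≤ A.det.re := by
  have h1 : ∀ i, lam ≤ hA.eigenvalues i := by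
    intro i
    rw [hA.eigenvalues_eq]
    have h2 := h ⇑(hA.eigenvectorBasis i)
    have h3 : ∑ k, ‖(hA.eigenvectorBasis i) k‖ ^ 2 = 1 := by
      have := EuclideanSpace.norm_sq_eq (hA.eigenvectorBasis i)
      rw [hA.eigenvectorBasis.orthonormal.1 i] at this
      linarith
    rw [h3, mul_one] at h2
    exact h2
  rw [hA.det_eq_prod_eigenvalues]
  have h4 : (∏ i, ((hA.eigenvalues i : ℝ) : ℂ)).re = ∏ i, hA.eigenvalues i := by
    rw [← Complex.ofReal_prod, Complex.ofReal_re]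
  have h5 : lam ^ g = ∏ _i : Fin g, lam := by simp
  refine le_trans ?_ h4.ge
  rw [h5]
  exact Finset.prod_le_prod (fun _ _ => hlam) (fun i _ => h1 i)

/-- The same with weights. -/
lemma det_lower_scaled {g : ℕ} (A : Matrix (Fin g) (Fin g) ℂ) (hA : A.IsHermitian) (lam : ℝ)
    (hlam : 0 ≤ lam) (s : Fin g → ℝ) (hs : ∀ i, 0 < s i)
    (h : ∀ v : Fin g → ℂ, lam * ∑ i, ‖v i‖ ^ 2 * s i ^ 2 ≤ (star v ⬝ᵥ (A *ᵥ v)).re) :
    lam ^ g * ∏ i, s i ^ 2 ≤ A.det.re := by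
  set A' : Matrix (Fin g) (Fin g) ℂ :=
    Matrix.of fun i j => ((s i : ℂ))⁻¹ * (Matrix.of fun i j => ((s j : ℂ))⁻¹ * A i j) i j with hA'
  have hent : ∀ i j, A' i j = ((s i : ℂ))⁻¹ * (((s j : ℂ))⁻¹ * A i j) := fun i j => rfl
  have hdet : A'.det = (∏ i, ((s i : ℂ))⁻¹) * ((∏ i, ((s i : ℂ))⁻¹) * A.det) := by
    rw [hA', det_mul_column, det_mul_row]
  have hherm : A'.IsHermitian := by
    ext i j
    rw [conjTranspose_apply, hent, hent]
    have := hA.apply i j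
    rw [← this]
    simp only [star_mul', RCLike.star_def, map_inv₀, Complex.conj_ofReal]
    ring
  have hform : ∀ v : Fin g → ℂ, lam * ∑ i, ‖v i‖ ^ 2 ≤ (star v ⬝ᵥ (A' *ᵥ v)).re := by
    intro v
    have h1 := h (fun i => ((s i : ℂ))⁻¹ * v i)
    have h2 : ∑ i, ‖((s i : ℂ))⁻¹ * v i‖ ^ 2 * s i ^ 2 = ∑ i, ‖v i‖ ^ 2 := by
      apply Finset.sum_congr rfl
      intro i _
      have := (hs i).ne'
      rw [norm_mul, norm_inv, Complex.norm_real, Real.norm_eq_abs, abs_of_pos (hs i)]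
      field_simp
    rw [h2] at h1
    refine h1.trans (le_of_eq ?_)
    congr 1
    simp only [dotProduct, mulVec, Finset.mul_sum]
    apply Finset.sum_congr rfl
    intro i _
    apply Finset.sum_congr rfl
    intro j _
    rw [hent]
    simp only [Pi.star_apply, star_mul', RCLike.star_def, map_inv₀, Complex.conj_ofReal]
    ring
  have h3 := det_lower A' hherm lam hlam hform
  rw [hdet] at h3
  have h4 : (∏ i, ((s i : ℂ))⁻¹) * ((∏ i, ((s i : ℂ))⁻¹) * A.det) =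
      (((∏ i, s i ^ 2)⁻¹ : ℝ) : ℂ) * A.det := by
    rw [← mul_assoc, ← Finset.prod_mul_distrib]
    congr 1
    push_cast
    rw [← Finset.prod_inv_distrib]
    apply Finset.prod_congr rfl
    intro i _
    rw [← mul_inv, sq]
  rw [h4, Complex.re_ofReal_mul] at h3
  have hP : 0 < ∏ i, s i ^ 2 := Finset.prod_pos fun i _ => pow_pos (hs i) 2
  calc lam ^ g * ∏ i, s i ^ 2 ≤ ((∏ i, s i ^ 2)⁻¹ * A.det.re) * ∏ i, s i ^ 2 := by gcongr
    _ = A.det.re := by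
        field_simp

/-- On the disc of radius `ρ`, `|f| ≤ (n + 1) S`. -/
lemma norm_le_on_disc {n : ℕ} (a : Fin (n + 1) → ℤ) (ρ S : ℝ)
    (ha : ∀ i, |(a i : ℝ)| * ρ ^ (i : ℕ) ≤ S) (z : ℂ)
    (hz : ‖z‖ ≤ ρ) : ‖((poly a).map (Int.castRingHom ℂ)).eval z‖ ≤ (n + 1) * S := by
  unfold poly
  rw [Polynomial.map_sum, eval_finsetSum]
  refine (norm_sum_le _ _).trans ?_
  calc ∑ i : Fin (n + 1), ‖((C (a i) * X ^ (i : ℕ)).map (Int.castRingHom ℂ)).eval z‖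
      ≤ ∑ _i : Fin (n + 1), S := by
        apply Finset.sum_le_sum
        intro i _
        simp only [Polynomial.map_mul, Polynomial.map_C, Polynomial.map_pow, Polynomial.map_X,
          eval_mul, eval_C, eval_pow, eval_X, norm_mul, norm_pow]
        have h1 : ‖(Int.castRingHom ℂ) (a i)‖ = |(a i : ℝ)| := by
          rw [eq_intCast, Complex.norm_intCast]
        rw [h1]
        calc |(a i : ℝ)| * ‖z‖ ^ (i : ℕ) ≤ |(a i : ℝ)| * ρ ^ (i : ℕ) := by gcongr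
          _ ≤ S := ha i
    _ = (n + 1) * S := by simp

/-- Lower bound for the weighted norm. -/
lemma weighted_lower {g : ℕ} (c : ℝ) (hcw : ∀ w : Fin g → ℂ, c * ∑ i, ‖w i‖ ^ 2 ≤
      ∫ z : ℂ, ‖∑ i, w i * z ^ (i : ℕ)‖ ^ 2 * (ball (0 : ℂ) 1).indicator (fun _ => (1 : ℝ)) z)
    (φ : ℂ → ℝ) (hφ0 : ∀ z, 0 ≤ φ z) (hne : ∀ᵐ z : ℂ, φ z ≠ 0) (B : ℝ) (hB : 0 < B)
    (hφB : ∀ z : ℂ, ‖z‖ ≤ 1 → φ z ≤ B) (w : Fin g → ℂ)
    (hint : Integrable (fun z : ℂ => ‖∑ i, w i * z ^ (i : ℕ)‖ ^ 2 * (φ z)⁻¹)) :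
    c / B * ∑ i, ‖w i‖ ^ 2 ≤ ∫ z : ℂ, ‖∑ i, w i * z ^ (i : ℕ)‖ ^ 2 * (φ z)⁻¹ := by
  have hle : ∀ᵐ z : ℂ, B⁻¹ * (‖∑ i, w i * z ^ (i : ℕ)‖ ^ 2 *
      (ball (0 : ℂ) 1).indicator (fun _ => (1 : ℝ)) z) ≤
      ‖∑ i, w i * z ^ (i : ℕ)‖ ^ 2 * (φ z)⁻¹ := by
    filter_upwards [hne] with z hz
    have hz0 : 0 < φ z := lt_of_le_of_ne (hφ0 z) (Ne.symm hz)
    by_cases hzb : z ∈ ball (0 : ℂ) 1
    · rw [Set.indicator_of_mem hzb, mul_one, mul_comm]
      apply mul_le_mul_of_nonneg_left _ (by positivity)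
      apply inv_anti₀ hz0
      apply hφB
      rw [mem_ball_zero_iff] at hzb
      exact hzb.le
    · rw [Set.indicator_of_notMem hzb, mul_zero, mul_zero]
      positivity
  have hint1 : Integrable (fun z : ℂ => B⁻¹ * (‖∑ i, w i * z ^ (i : ℕ)‖ ^ 2 *
      (ball (0 : ℂ) 1).indicator (fun _ => (1 : ℝ)) z)) := by
    apply Integrable.const_mul
    have h1 : (fun z : ℂ => ‖∑ i, w i * z ^ (i : ℕ)‖ ^ 2 *
      (ball (0 : ℂ) 1).indicator (fun _ => (1 : ℝ)) z) =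
      (ball (0 : ℂ) 1).indicator (fun z : ℂ => ‖∑ i, w i * z ^ (i : ℕ)‖ ^ 2) := by
      ext z
      by_cases hz : z ∈ ball (0 : ℂ) 1
      · simp [Set.indicator_of_mem hz]
      · simp [Set.indicator_of_notMem hz]
    rw [h1, integrable_indicator_iff measurableSet_ball]
    have hc : Continuous (fun z : ℂ => ‖∑ i, w i * z ^ (i : ℕ)‖ ^ 2) := by fun_prop
    exact (hc.continuousOn.integrableOn_compact (isCompact_closedBall (0 : ℂ) 1)).mono_set
      ball_subset_closedBall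
  have h2 := integral_mono_ae hint1 hint hle
  rw [integral_const_mul] at h2
  calc c / B * ∑ i, ‖w i‖ ^ 2 = B⁻¹ * (c * ∑ i, ‖w i‖ ^ 2) := by ring
    _ ≤ B⁻¹ * ∫ z : ℂ, ‖∑ i, w i * z ^ (i : ℕ)‖ ^ 2 *
      (ball (0 : ℂ) 1).indicator (fun _ => (1 : ℝ)) z := by
        gcongr
        exact hcw w
    _ ≤ _ := h2

/-- Lower bound for the weighted norm, disc of radius `ρ`. -/
lemma weighted_lower_scaled {g : ℕ} (c : ℝ) (hcw : ∀ w : Fin g → ℂ, c * ∑ i, ‖w i‖ ^ 2 ≤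
      ∫ z : ℂ, ‖∑ i, w i * z ^ (i : ℕ)‖ ^ 2 * (ball (0 : ℂ) 1).indicator (fun _ => (1 : ℝ)) z)
    (F : ℂ[X]) (hF : F ≠ 0) (ρ B : ℝ) (hρ : 0 < ρ) (hB : 0 < B)
    (hFB : ∀ z : ℂ, ‖z‖ ≤ ρ → ‖F.eval z‖ ≤ B) (w : Fin g → ℂ)
    (hint : Integrable (fun z : ℂ => ‖∑ i, w i * z ^ (i : ℕ)‖ ^ 2 * ‖F.eval z‖⁻¹)) :
    c / B * ∑ i : Fin g, ‖w i‖ ^ 2 * (ρ ^ ((i : ℕ) + 1)) ^ 2 ≤
      ∫ z : ℂ, ‖∑ i, w i * z ^ (i : ℕ)‖ ^ 2 * ‖F.eval z‖⁻¹ := by
  have hne : ∀ᵐ z : ℂ, ‖F.eval (ρ • z)‖ ≠ 0 := by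
    rw [ae_iff]
    have hfin : {z : ℂ | ¬ ‖F.eval (ρ • z)‖ ≠ 0}.Finite := by
      have h1 : {z : ℂ | ¬ ‖F.eval (ρ • z)‖ ≠ 0} ⊆
          (fun z : ℂ => ρ • z) ⁻¹' (F.roots.toFinset : Set ℂ) := by
        intro z hz
        rw [Set.mem_preimage, Finset.mem_coe, Multiset.mem_toFinset, mem_roots hF]
        simpa using hz
      refine Set.Finite.subset (Set.Finite.preimage ?_ (Finset.finite_toSet _)) h1
      intro x _ y _ hxy
      exact smul_right_injective ℂ hρ.ne' hxy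
    exact hfin.measure_zero _
  have hsum : ∀ z : ℂ, ∑ i, (w i * (ρ : ℂ) ^ (i : ℕ)) * z ^ (i : ℕ) =
      ∑ i, w i * (ρ • z) ^ (i : ℕ) := by
    intro z
    apply Finset.sum_congr rfl
    intro i _
    rw [Complex.real_smul, mul_pow]
    ring
  have hint' : Integrable (fun z : ℂ => ‖∑ i, (w i * (ρ : ℂ) ^ (i : ℕ)) * z ^ (i : ℕ)‖ ^ 2 *
      (‖F.eval (ρ • z)‖)⁻¹) := by
    have := hint.comp_smul hρ.ne'
    refine this.congr (Filter.Eventually.of_forall fun z => ?_)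
    simp only [hsum]
  have h1 := weighted_lower c hcw (fun z => ‖F.eval (ρ • z)‖) (fun z => norm_nonneg _) hne B hB
    (fun z hz => hFB _ (by
      rw [norm_smul, Real.norm_eq_abs, abs_of_pos hρ]
      nlinarith)) (fun i => w i * (ρ : ℂ) ^ (i : ℕ)) hint'
  simp only [hsum] at h1
  have h2 := Measure.integral_comp_smul (volume : Measure ℂ)
    (fun z : ℂ => ‖∑ i, w i * z ^ (i : ℕ)‖ ^ 2 * ‖F.eval z‖⁻¹) ρ
  rw [Complex.finrank_real_complex, abs_of_nonneg (by positivity), smul_eq_mul] at h2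
  rw [h2] at h1
  have hρ2 : 0 < ρ ^ 2 := by positivity
  calc c / B * ∑ i : Fin g, ‖w i‖ ^ 2 * (ρ ^ ((i : ℕ) + 1)) ^ 2
      = ρ ^ 2 * (c / B * ∑ i, ‖w i * (ρ : ℂ) ^ (i : ℕ)‖ ^ 2) := by
        rw [Finset.mul_sum, Finset.mul_sum, Finset.mul_sum]
        apply Finset.sum_congr rfl
        intro i _
        rw [norm_mul, norm_pow, Complex.norm_real, Real.norm_eq_abs, abs_of_pos hρ]
        ring
    _ ≤ ρ ^ 2 * ((ρ ^ 2)⁻¹ * ∫ z : ℂ, ‖∑ i, w i * z ^ (i : ℕ)‖ ^ 2 * ‖F.eval z‖⁻¹) := by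
        gcongr
    _ = _ := by
        rw [← mul_assoc, mul_inv_cancel₀ hρ2.ne', one_mul]

/-- **Upper bound for the height**, all polynomials and all radii. -/
theorem height_upper (n g : ℕ) (hg : 2 * g + 1 ≤ n) : ∃ c : ℝ, 0 < c ∧
    ∀ a : Fin (n + 1) → ℤ,
      ((poly a).map (Int.castRingHom ℂ)).natDegree = n →
      ((poly a).map (Int.castRingHom ℂ)).Separable →
      (∀ i j : Fin g, Integrable (fun z : ℂ => z ^ (i : ℕ) * conj z ^ (j : ℕ) /
        ((‖eval₂ (Int.castRingHom ℂ) z (poly a)‖ : ℝ) : ℂ))) ∧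
      (gram g (poly a)).PosDef ∧
      ∀ ρ S : ℝ, 0 < ρ → 0 < S → (∀ i, |(a i : ℝ)| * ρ ^ (i : ℕ) ≤ S) →
        (c / S) ^ g * ρ ^ (g * (g + 1)) ≤ (gram g (poly a)).det.re := by
  obtain ⟨c, hc, hcw⟩ := disc_lower g
  refine ⟨c / (2 * (n + 1)), by positivity, ?_⟩
  intro a hdeg hsep
  set F := (poly a).map (Int.castRingHom ℂ) with hF
  have hint : ∀ i j : Fin g, Integrable (fun z : ℂ => z ^ (i : ℕ) * conj z ^ (j : ℕ) *
      ((‖F.eval z‖⁻¹ : ℝ) : ℂ)) := by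
    intro i j
    apply integrable_kernel F hsep
    rw [hdeg]
    have := i.2
    have := j.2
    omega
  have hform : ∀ ρ S : ℝ, 0 < ρ → 0 < S → (∀ i, |(a i : ℝ)| * ρ ^ (i : ℕ) ≤ S) →
      ∀ v : Fin g → ℂ, c / (2 * (n + 1)) / S * ∑ i : Fin g, ‖v i‖ ^ 2 * (ρ ^ ((i : ℕ) + 1)) ^ 2 ≤
      (star v ⬝ᵥ (gram g (poly a) *ᵥ v)).re := by
    intro ρ S hρ hS ha v
    rw [gram_form g (poly a) hint v, Complex.ofReal_re]
    have hint2 : Integrable (fun z : ℂ => ‖∑ i, conj (v i) * z ^ (i : ℕ)‖ ^ 2 *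
        ‖F.eval z‖⁻¹) := by
      have h1 : Integrable (fun z : ℂ => ∑ i : Fin g, ∑ j : Fin g, conj (v i) * v j *
          (z ^ (i : ℕ) * conj z ^ (j : ℕ) * ((‖F.eval z‖⁻¹ : ℝ) : ℂ))) := by
        apply integrable_finsetSum
        intro i _
        apply integrable_finsetSum
        intro j _
        exact (hint i j).const_mul _
      have h2 := h1.re
      refine h2.congr (Filter.Eventually.of_forall fun z => ?_)
      have h3 : (∑ i : Fin g, ∑ j : Fin g, conj (v i) * v j *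
          (z ^ (i : ℕ) * conj z ^ (j : ℕ) * ((‖F.eval z‖⁻¹ : ℝ) : ℂ))) =
          ((‖∑ i, conj (v i) * z ^ (i : ℕ)‖ ^ 2 * ‖F.eval z‖⁻¹ : ℝ) : ℂ) := by
        have h4 : ((‖∑ i, conj (v i) * z ^ (i : ℕ)‖ : ℝ) : ℂ) ^ 2 =
            (∑ i, conj (v i) * z ^ (i : ℕ)) * conj (∑ i, conj (v i) * z ^ (i : ℕ)) := by
          rw [Complex.mul_conj, Complex.normSq_eq_norm_sq]
          push_cast
          rfl
        push_cast
        rw [h4, map_sum, Finset.sum_mul_sum, Finset.sum_mul]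
        apply Finset.sum_congr rfl
        intro i _
        rw [Finset.sum_mul]
        apply Finset.sum_congr rfl
        intro j _
        simp only [map_mul, map_pow, Complex.conj_conj]
        ring
      simp only [h3]
      exact RCLike.ofReal_re _
    have h5 := weighted_lower_scaled c hcw F hsep.ne_zero ρ ((n + 1) * S) hρ (by positivity)
      (fun z hz => norm_le_on_disc a ρ S ha z hz) (fun i => conj (v i)) hint2
    have h6 : ∑ i : Fin g, ‖conj (v i)‖ ^ 2 * (ρ ^ ((i : ℕ) + 1)) ^ 2 =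
        ∑ i : Fin g, ‖v i‖ ^ 2 * (ρ ^ ((i : ℕ) + 1)) ^ 2 := by
      apply Finset.sum_congr rfl
      intro i _
      rw [RCLike.norm_conj]
    rw [h6] at h5
    calc c / (2 * (n + 1)) / S * ∑ i : Fin g, ‖v i‖ ^ 2 * (ρ ^ ((i : ℕ) + 1)) ^ 2 =
        1 / 2 * (c / ((n + 1) * S) * ∑ i : Fin g, ‖v i‖ ^ 2 * (ρ ^ ((i : ℕ) + 1)) ^ 2) := by
          field_simp
      _ ≤ _ := by gcongr
  refine ⟨?_, ?_, ?_⟩
  · intro i j
    refine (hint i j).congr (Filter.Eventually.of_forall fun z => ?_)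
    simp only [hF, eval_map]
    push_cast
    rw [div_eq_mul_inv]
  · apply PosDef.of_dotProduct_mulVec_pos (gram_isHermitian g _)
    intro v hv
    set S : ℝ := 1 + ∑ i, |(a i : ℝ)| with hS
    have hS0 : 0 < S := by
      have : 0 ≤ ∑ i, |(a i : ℝ)| := Finset.sum_nonneg fun _ _ => abs_nonneg _
      linarith
    have h1 := hform 1 S one_pos hS0 (fun i => by
      rw [one_pow, mul_one, hS]
      have := Finset.single_le_sum (f := fun i => |(a i : ℝ)|) (fun i _ => abs_nonneg _)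
        (Finset.mem_univ i)
      linarith) v
    have h2 : 0 < ∑ i, ‖v i‖ ^ 2 := by
      obtain ⟨i, hi⟩ := Function.ne_iff.mp hv
      apply Finset.sum_pos' (fun i _ => by positivity)
      exact ⟨i, Finset.mem_univ i, by
        have : 0 < ‖v i‖ := norm_pos_iff.mpr hi
        positivity⟩
    simp only [one_pow, mul_one] at h1
    have h3 : 0 < (star v ⬝ᵥ (gram g (poly a) *ᵥ v)).re :=
      lt_of_lt_of_le (by positivity) h1
    rw [gram_form g (poly a) hint v] at h3 ⊢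
    rw [Complex.ofReal_re] at h3
    exact_mod_cast h3
  · intro ρ S hρ hS ha
    have h1 := det_lower_scaled _ (gram_isHermitian g (poly a)) (c / (2 * (n + 1)) / S)
      (by positivity) (fun i => ρ ^ ((i : ℕ) + 1)) (fun i => by positivity)
      (hform ρ S hρ hS ha)
    refine le_trans (le_of_eq ?_) h1
    congr 1
    have h2 : ∀ k : ℕ, ∏ i : Fin k, (ρ ^ ((i : ℕ) + 1)) ^ 2 = ρ ^ (k * (k + 1)) := by
      intro k
      induction k with
      | zero => simp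
      | succ k ih =>
        rw [Fin.prod_univ_castSucc]
        simp only [Fin.val_castSucc, Fin.val_last]
        rw [ih, ← pow_mul, ← pow_add]
        congr 1
        ring
    exact (h2 g).symm

end Pool.Agent.Helper5Frey
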