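import Pool.Agent.Helper5_Frey.Line
import Pool.Agent.Helper5_Frey.Gram

/-!
# The inequality on lines
-/

namespace Pool.Agent.Helper5Frey

open MeasureTheory Polynomial
open scoped ComplexOrder

/-- The height bound for one polynomial. -/
def HeightBound (n g : ℕ) (C₀ : ℝ) : Prop :=
  ∀ a : Fin (n + 1) → ℤ, (poly a).natDegree = n →
    ((poly a).map (Int.castRingHom ℚ)).Separable →
      (∀ i j : Fin g, Integrable (fun z : ℂ => z ^ (i : ℕ) * (starRingEnd ℂ z) ^ (j : ℕ) /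
        ((‖eval₂ (Int.castRingHom ℂ) z (poly a)‖ : ℝ) : ℂ))) ∧
      (gram g (poly a)).PosDef ∧ ∀ ρ S : ℝ, 0 < ρ →
      (∀ i, |(a i : ℝ)| * ρ ^ (i : ℕ) ≤ S) →
      hW g (poly a) ≤ (g : ℝ) / 2 * Real.log S - (g : ℝ) * (g + 1) / 2 * Real.log ρ + C₀

lemma separable_complex {f : ℤ[X]} (h : (f.map (Int.castRingHom ℚ)).Separable) :
    (f.map (Int.castRingHom ℂ)).Separable := by
  have h1 := h.map (f := algebraMap ℚ ℂ)
  rw [Polynomial.map_map] at h1
  have h2 : (algebraMap ℚ ℂ).comp (Int.castRingHom ℚ) = Int.castRingHom ℂ := RingHom.ext_int _ _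
  rwa [h2] at h1

lemma natDegree_complex (f : ℤ[X]) : (f.map (Int.castRingHom ℂ)).natDegree = f.natDegree :=
  natDegree_map_eq_of_injective (RingHom.injective_int _) f

lemma poly_coeff_last {n : ℕ} (a : Fin (n + 1) → ℤ) : (poly a).coeff n = a (Fin.last n) := by
  unfold poly
  rw [finsetSum_coeff, Finset.sum_eq_single (Fin.last n)]
  · simp
  · intro i _ hi
    rw [coeff_C_mul_X_pow, if_neg]
    intro h
    apply hi
    apply Fin.ext
    simp
    omega
  · intro h
    exact absurd (Finset.mem_univ _) h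

lemma last_ne_zero_of_natDegree {n : ℕ} (hn : n ≠ 0) (a : Fin (n + 1) → ℤ)
    (h : (poly a).natDegree = n) : a (Fin.last n) ≠ 0 := by
  rw [← poly_coeff_last a]
  intro h0
  have h1 : (poly a).leadingCoeff = 0 := by rw [leadingCoeff, h, h0]
  rw [leadingCoeff_eq_zero] at h1
  rw [h1, natDegree_zero] at h
  exact hn h.symm

/-- The height bound holds with some constant, with the integrals convergent and the Gram matrix
positive definite. -/
theorem exists_heightBound (n g : ℕ) (hn : n ≠ 0) (hg : 2 * g + 1 ≤ n) : ∃ C₀ : ℝ,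
    HeightBound n g C₀ := by
  obtain ⟨c, hc, h⟩ := height_upper n g hg
  refine ⟨-((g : ℝ) / 2 * Real.log c), ?_⟩
  intro a hdeg hsep
  obtain ⟨h1, h2, _⟩ := h a ((natDegree_complex _).trans hdeg) (separable_complex hsep)
  refine ⟨h1, h2, ?_⟩
  · intro ρ S hρ hS
    have hlast := last_ne_zero_of_natDegree hn a hdeg
    have hS0 : 0 < S := by
      refine lt_of_lt_of_le ?_ (hS (Fin.last n))
      have : 0 < |(a (Fin.last n) : ℝ)| := abs_pos.mpr (by exact_mod_cast hlast)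
      positivity
    obtain ⟨_, _, h3⟩ := h a ((natDegree_complex _).trans hdeg) (separable_complex hsep)
    have h4 := h3 ρ S hρ hS0 hS
    have hpos : 0 < (c / S) ^ g * ρ ^ (g * (g + 1)) := by positivity
    have h5 := Real.log_le_log hpos h4
    rw [Real.log_mul (by positivity) (by positivity), Real.log_pow, Real.log_pow,
      Real.log_div hc.ne' hS0.ne'] at h5
    push_cast at h5
    unfold hW
    linarith

/-- **The inequality on a line.** -/
theorem line_frey {m : ℕ} (hm : 2 ≤ m) {C₀ : ℝ} (hC₀ : HeightBound (m + 1) (m / 2) C₀)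
    {κ η : ℝ} (hκ : 0 < κ) (hη : 0 < η) : ∃ C : ℝ, 0 < C ∧
    ∀ b : Fin (m + 1) → ℤ, Mv b ≠ 0 → ∀ H : ℕ, 1 ≤ H → ∀ ρ : ℝ, 1 ≤ ρ →
      (∀ i : Fin (m + 1), |(b i : ℝ)| * ρ ^ ((i : ℕ) + 1) ≤ H) →
      ∀ s : Finset ℤ, s ⊆ Finset.Icc (-(H : ℤ)) H →
        (∀ c ∈ s, ¬ FreyHolds (m + 1) κ C₀ (poly (Fin.cons c b : Fin (m + 2) → ℤ))) →
        (s.card : ℝ) ≤ C * ((H : ℝ) / ρ ^ (m / 2 + 1)) ^ (((m / 2 : ℕ) : ℝ) / (2 * κ)) *
          (H : ℝ) ^ η := by
  classical
  set g : ℕ := m / 2 with hg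
  set θ : ℝ := (g : ℝ) / (2 * κ) with hθ
  have hθ0 : 0 ≤ θ := by positivity
  set η' : ℝ := η / (θ + 1) with hη'
  have hη'0 : 0 < η' := by positivity
  obtain ⟨C, hC, hline⟩ := line_count (m := m) (by omega) hη'0
  refine ⟨C, hC, ?_⟩
  intro b hM H hH ρ hρ hb s hs hbad
  have hH1 : (1 : ℝ) ≤ H := by exact_mod_cast hH
  have hH0 : (0 : ℝ) < H := by linarith
  have hρ0 : 0 < ρ := by linarith
  have hb0 : b (Fin.last m) ≠ 0 := by
    intro h0
    apply hM
    simp [Mv, h0]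
  have habs1 : (1 : ℝ) ≤ |(b (Fin.last m) : ℝ)| := by
    have : 1 ≤ |b (Fin.last m)| := Int.one_le_abs hb0
    exact_mod_cast this
  have hρH : ρ ^ (g + 1) ≤ H := by
    calc ρ ^ (g + 1) ≤ ρ ^ (m + 1) := by
          apply pow_le_pow_right₀ hρ
          omega
      _ = 1 * ρ ^ (m + 1) := (one_mul _).symm
      _ ≤ |(b (Fin.last m) : ℝ)| * ρ ^ (m + 1) := by gcongr
      _ ≤ H := by simpa using hb (Fin.last m)
  have hbH : ∀ i, (b i).natAbs ≤ H := by
    intro i
    have h1 : |(b i : ℝ)| ≤ H := by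
      calc |(b i : ℝ)| = |(b i : ℝ)| * 1 := (mul_one _).symm
        _ ≤ |(b i : ℝ)| * ρ ^ ((i : ℕ) + 1) := by
            gcongr
            exact one_le_pow₀ hρ
        _ ≤ H := hb i
    have h2 : ((b i).natAbs : ℝ) = |(b i : ℝ)| := by
      rw [← Int.cast_abs, Int.abs_eq_natAbs]
      rfl
    rw [← h2] at h1
    exact_mod_cast h1
  set Q : ℝ := (H : ℝ) / ρ ^ (g + 1) with hQ
  have hQ1 : 1 ≤ Q := by
    rw [hQ, one_le_div (by positivity)]
    exact hρH
  have hQ0 : 0 < Q := by linarith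
  have hQH : Q ≤ H := by
    rw [hQ, div_le_iff₀ (by positivity)]
    have : 1 ≤ ρ ^ (g + 1) := one_le_pow₀ hρ
    nlinarith
  set Y : ℝ := Q ^ θ with hY
  have hY1 : 1 ≤ Y := Real.one_le_rpow hQ1 hθ0
  have hYH : Y ≤ (H : ℝ) ^ θ := Real.rpow_le_rpow hQ0.le hQH hθ0
  have h1 := hline H hH b hbH hM Y hY1
  have hsub : s ⊆ (Finset.Icc (-(H : ℤ)) H).filter (fun c => (RT b).eval c = 0 ∨
      (Nstar (f0 b + Polynomial.C c) : ℝ) ≤ Y) := by
    intro c hc
    rw [Finset.mem_filter]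
    refine ⟨hs hc, ?_⟩
    by_contra hcon
    push Not at hcon
    obtain ⟨hR, hN⟩ := hcon
    apply hbad c hc
    have hpoly : poly (Fin.cons c b : Fin (m + 2) → ℤ) = f0 b + Polynomial.C c := poly_cons b c
    have hdeg : (poly (Fin.cons c b : Fin (m + 2) → ℤ)).natDegree = m + 1 := by
      rw [hpoly]
      exact natDegree_f0_add b c hb0
    have hsep : ((poly (Fin.cons c b : Fin (m + 2) → ℤ)).map (Int.castRingHom ℚ)).Separable := by
      rw [hpoly]
      exact separable_of_RT_ne_zero b c hR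
    have h6 : (m + 1 - 1) / 2 = g := by omega
    unfold FreyHolds
    rw [h6]
    obtain ⟨hint, hpos, hbd⟩ := hC₀ (Fin.cons c b : Fin (m + 2) → ℤ) hdeg hsep
    have hfin : (nodePrimes (poly (Fin.cons c b : Fin (m + 2) → ℤ))).Finite := by
      rw [hpoly]
      exact nodePrimes_finite b c hb0 hR
    refine ⟨hdeg, hsep, hint, hpos, hfin, ?_⟩
    have h2 := hbd ρ H hρ0 (by
      intro i
      refine Fin.cases ?_ ?_ i
      · have := hs hc
        rw [Finset.mem_Icc] at this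
        simp only [Fin.cons_zero, Fin.val_zero, pow_zero, mul_one]
        rw [abs_le]
        constructor
        · exact_mod_cast this.1
        · exact_mod_cast this.2
      · intro i
        simp only [Fin.cons_succ, Fin.val_succ]
        exact hb i)
    have h3 : κ * Real.log Y = (g : ℝ) / 2 * Real.log H - (g : ℝ) * (g + 1) / 2 * Real.log ρ := by
      rw [hY, Real.log_rpow hQ0, hQ, Real.log_div hH0.ne' (by positivity), Real.log_pow, hθ]
      push_cast
      field_simp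
    have h4 : Real.log Y ≤ Real.log (Nstar (f0 b + Polynomial.C c)) :=
      Real.log_le_log (by linarith) hN.le
    have h5 : κ * Real.log Y ≤ κ * Real.log (Nstar (f0 b + Polynomial.C c)) :=
      mul_le_mul_of_nonneg_left h4 hκ.le
    rw [hpoly] at h2 ⊢
    linarith
  have hsc : (s.card : ℝ) ≤ (((Finset.Icc (-(H : ℤ)) H).filter (fun c => (RT b).eval c = 0 ∨
      (Nstar (f0 b + Polynomial.C c) : ℝ) ≤ Y)).card : ℝ) := by
    exact_mod_cast Finset.card_le_card hsub
  have h7 : (Y * H) ^ η' ≤ (H : ℝ) ^ η := by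
    calc (Y * H) ^ η' ≤ ((H : ℝ) ^ θ * H) ^ η' := by
          apply Real.rpow_le_rpow (by positivity) _ hη'0.le
          gcongr
      _ = (H : ℝ) ^ η := by
          have : (H : ℝ) ^ θ * H = (H : ℝ) ^ (θ + 1) := by
            rw [Real.rpow_add hH0, Real.rpow_one]
          rw [this, ← Real.rpow_mul hH0.le, hη', mul_div_cancel₀ _ (by positivity)]
  calc (s.card : ℝ) ≤ C * Y * (Y * H) ^ η' := hsc.trans h1
    _ ≤ C * Y * (H : ℝ) ^ η := by gcongr

end Pool.Agent.Helper5Frey
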