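import Pool.Agent.Helper5_Frey.Monic

/-!
# Frey's inequality for almost all hyperelliptic Jacobians

All definitions used by the statement are in `Pool.Agent.Helper5_Frey.Defs`.
-/

namespace Pool.Agent.Results.MP_c59389_nt.AlmostAllHyperelliptic

open Helper5Frey

/-- Let `n ≥ 3` and `g = (n - 1) / 2`, rounded down. There is a constant `C₀` such that for all
`κ > 0` and `η > 0` some `C` has the following property for all `H ≥ 1`. Among the polynomials
`f = a_0 + a_1 x + ... + a_n x ^ n` with integer coefficients of absolute value at most `H`, all but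
at most `C * H ^ (n + g / (2 κ) + η)` have degree `n` and no multiple root and satisfy
`hW f ≤ κ log (N* f) + C₀`. -/
theorem result (n : ℕ) (hn : 3 ≤ n) : ∃ C₀ : ℝ, ∀ κ : ℝ, 0 < κ → ∀ η : ℝ, 0 < η →
    ∃ C : ℝ, ∀ H : ℕ, 1 ≤ H →
      ({a : Fin (n + 1) → ℤ | (∀ i, |a i| ≤ H) ∧ ¬ FreyHolds n κ C₀ (poly a)}.ncard : ℝ) ≤
        C * (H : ℝ) ^ ((n : ℝ) + (((n - 1) / 2 : ℕ) : ℝ) / (2 * κ) + η) := by
  obtain ⟨m, rfl⟩ : ∃ m, n = m + 1 := ⟨n - 1, by omega⟩
  have hm : 2 ≤ m := by omega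
  have hg : (m + 1 - 1) / 2 = m / 2 := by omega
  rw [hg]
  obtain ⟨C₀, hC₀⟩ := exists_heightBound (m + 1) (m / 2) (by omega) (by omega)
  refine ⟨C₀, fun κ hκ η hη => ?_⟩
  obtain ⟨C, _, h⟩ := box_frey hm hC₀ hκ hη
  refine ⟨C, fun H hH => ?_⟩
  have hfin : {a : Fin (m + 1 + 1) → ℤ | (∀ i, |a i| ≤ H) ∧
      ¬ FreyHolds (m + 1) κ C₀ (poly a)}.Finite := by
    apply Set.Finite.subset
      (Fintype.piFinset (fun _ : Fin (m + 1 + 1) => Finset.Icc (-(H : ℤ)) H)).finite_toSet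
    intro a ha
    rw [Finset.mem_coe, Fintype.mem_piFinset]
    intro i
    rw [Finset.mem_Icc, ← abs_le]
    exact ha.1 i
  rw [Set.ncard_eq_toFinset_card _ hfin]
  apply h H hH
  intro a ha
  rw [Set.Finite.mem_toFinset] at ha
  refine ⟨fun i => ?_, ha.2⟩
  have := ha.1 i
  rw [abs_le] at this
  omega

end Pool.Agent.Results.MP_c59389_nt.AlmostAllHyperelliptic
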