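import Pool.Agent.Helper5_Frey.Frey

/-!
# The inequality in boxes
-/

namespace Pool.Agent.Helper5Frey

open MeasureTheory Polynomial

/-- Slicing a box along the constant coefficient. -/
lemma card_box_le {k : ℕ} (S : Fin (k + 1) → Finset ℤ) (P : (Fin (k + 1) → ℤ) → Prop)
    [DecidablePred P] :
    ((Fintype.piFinset S).filter P).card ≤
      ∑ b ∈ Fintype.piFinset (fun i : Fin k => S i.succ),
        ((S 0).filter (fun c => P (Fin.cons c b : Fin (k + 1) → ℤ))).card := by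
  classical
  have hmaps : ((Fintype.piFinset S).filter P : Set (Fin (k + 1) → ℤ)).MapsTo
      (fun a => Fin.tail a) (Fintype.piFinset (fun i : Fin k => S i.succ)) := by
    intro a ha
    rw [Finset.mem_coe, Finset.mem_filter, Fintype.mem_piFinset] at ha
    rw [Finset.mem_coe, Fintype.mem_piFinset]
    intro i
    exact ha.1 i.succ
  rw [Finset.card_eq_sum_card_fiberwise hmaps]
  apply Finset.sum_le_sum
  intro b _
  apply Finset.card_le_card_of_injOn (fun a => a 0)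
  · intro a ha
    rw [Finset.mem_coe, Finset.mem_filter, Finset.mem_filter, Fintype.mem_piFinset] at ha
    obtain ⟨⟨h1, h2⟩, h3⟩ := ha
    rw [Finset.mem_coe, Finset.mem_filter]
    refine ⟨h1 0, ?_⟩
    rw [← h3, Fin.cons_self_tail]
    exact h2
  · intro a ha a' ha' h
    rw [Finset.mem_coe, Finset.mem_filter] at ha ha'
    rw [← Fin.cons_self_tail a, ← Fin.cons_self_tail a']
    rw [ha.2, ha'.2]
    simp only at h
    rw [h]

/-- **The inequality in the box `|a i| ≤ H`.** -/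
theorem box_frey {m : ℕ} (hm : 2 ≤ m) {C₀ : ℝ} (hC₀ : HeightBound (m + 1) (m / 2) C₀)
    {κ η : ℝ} (hκ : 0 < κ) (hη : 0 < η) : ∃ C : ℝ, 0 < C ∧ ∀ H : ℕ, 1 ≤ H →
    ∀ T : Finset (Fin (m + 2) → ℤ),
      (∀ a ∈ T, (∀ i, (a i).natAbs ≤ H) ∧ ¬ FreyHolds (m + 1) κ C₀ (poly a)) →
      (T.card : ℝ) ≤ C * (H : ℝ) ^ (((m + 1 : ℕ) : ℝ) + ((m / 2 : ℕ) : ℝ) / (2 * κ) + η) := by
  classical
  set θ : ℝ := ((m / 2 : ℕ) : ℝ) / (2 * κ) with hθ
  have hθ0 : 0 ≤ θ := by positivity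
  obtain ⟨C1, hC1, hline⟩ := line_frey hm hC₀ hκ hη
  obtain ⟨C2, hC2, hdeg⟩ := degenerate_count (m := m) (by omega)
  refine ⟨3 ^ (m + 1) * C1 + 3 * C2, by positivity, ?_⟩
  intro H hH T hT
  have hH1 : (1 : ℝ) ≤ H := by exact_mod_cast hH
  have hH0 : (0 : ℝ) < H := by linarith
  set S : Fin (m + 2) → Finset ℤ := fun _ => Finset.Icc (-(H : ℤ)) H with hS
  set P : (Fin (m + 2) → ℤ) → Prop := fun a => ¬ FreyHolds (m + 1) κ C₀ (poly a) with hP
  have hTsub : T ⊆ (Fintype.piFinset S).filter P := by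
    intro a ha
    obtain ⟨h1, h2⟩ := hT a ha
    rw [Finset.mem_filter, Fintype.mem_piFinset]
    refine ⟨fun i => ?_, h2⟩
    rw [hS, Finset.mem_Icc]
    have := h1 i
    omega
  set Bx := Fintype.piFinset (fun _ : Fin (m + 1) => Finset.Icc (-(H : ℤ)) H) with hBx
  have hcS : (Finset.Icc (-(H : ℤ)) H).card = 2 * H + 1 := by
    rw [Int.card_Icc]
    omega
  have hBxc : Bx.card = (2 * H + 1) ^ (m + 1) := by
    rw [hBx, Fintype.card_piFinset]
    simp [hcS]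
  have h3H : ((2 * H + 1 : ℕ) : ℝ) ≤ 3 * H := by
    push_cast
    linarith
  have hfib : ∀ b ∈ Bx, Mv b ≠ 0 →
      (((Finset.Icc (-(H : ℤ)) H).filter
        (fun c => P (Fin.cons c b : Fin (m + 2) → ℤ))).card : ℝ) ≤ C1 * (H : ℝ) ^ (θ + η) := by
    intro b hb hM
    rw [hBx, Fintype.mem_piFinset] at hb
    have h1 := hline b hM H hH 1 le_rfl (by
      intro i
      rw [one_pow, mul_one, abs_le]
      have := hb i
      rw [Finset.mem_Icc] at this
      constructor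
      · exact_mod_cast this.1
      · exact_mod_cast this.2) ((Finset.Icc (-(H : ℤ)) H).filter
        (fun c => P (Fin.cons c b : Fin (m + 2) → ℤ))) (Finset.filter_subset _ _)
      (fun c hc => (Finset.mem_filter.mp hc).2)
    rw [one_pow, div_one, mul_assoc, ← Real.rpow_add hH0] at h1
    exact h1
  have hle : (T.card : ℝ) ≤ ∑ b ∈ Bx, (((Finset.Icc (-(H : ℤ)) H).filter
        (fun c => P (Fin.cons c b : Fin (m + 2) → ℤ))).card : ℝ) := by
    have h1 := (Finset.card_le_card hTsub).trans (card_box_le S P)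
    exact_mod_cast h1
  have hsplit : ∑ b ∈ Bx, (((Finset.Icc (-(H : ℤ)) H).filter
        (fun c => P (Fin.cons c b : Fin (m + 2) → ℤ))).card : ℝ) ≤
      ∑ b ∈ Bx, (C1 * (H : ℝ) ^ (θ + η) + if Mv b = 0 then ((2 * H + 1 : ℕ) : ℝ) else 0) := by
    apply Finset.sum_le_sum
    intro b hb
    have hp : 0 ≤ C1 * (H : ℝ) ^ (θ + η) := by positivity
    split_ifs with h0
    · have h2 : (((Finset.Icc (-(H : ℤ)) H).filter
        (fun c => P (Fin.cons c b : Fin (m + 2) → ℤ))).card : ℝ) ≤ ((2 * H + 1 : ℕ) : ℝ) := by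
        rw [← hcS]
        exact_mod_cast Finset.card_filter_le _ _
      linarith
    · rw [add_zero]
      exact hfib b hb h0
  have hdegH := hdeg H hH
  calc (T.card : ℝ) ≤ ∑ b ∈ Bx, (C1 * (H : ℝ) ^ (θ + η) +
        if Mv b = 0 then ((2 * H + 1 : ℕ) : ℝ) else 0) := hle.trans hsplit
    _ = (Bx.card : ℝ) * (C1 * (H : ℝ) ^ (θ + η)) +
        ((Bx.filter (fun b => Mv b = 0)).card : ℝ) * ((2 * H + 1 : ℕ) : ℝ) := by
        rw [Finset.sum_add_distrib, Finset.sum_const, nsmul_eq_mul, ← Finset.sum_filter,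
          Finset.sum_const, nsmul_eq_mul]
    _ ≤ (3 * (H : ℝ)) ^ (m + 1) * (C1 * (H : ℝ) ^ (θ + η)) + (C2 * (H : ℝ) ^ m) * (3 * H) := by
        have h4 : (Bx.card : ℝ) ≤ (3 * (H : ℝ)) ^ (m + 1) := by
          rw [hBxc]
          push_cast at h3H ⊢
          gcongr
        gcongr
    _ = 3 ^ (m + 1) * C1 * ((H : ℝ) ^ (((m + 1 : ℕ) : ℝ)) * (H : ℝ) ^ (θ + η)) +
        3 * C2 * ((H : ℝ) ^ (((m + 1 : ℕ) : ℝ))) := by
        rw [Real.rpow_natCast, mul_pow]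
        ring
    _ ≤ 3 ^ (m + 1) * C1 * (H : ℝ) ^ (((m + 1 : ℕ) : ℝ) + θ + η) +
        3 * C2 * (H : ℝ) ^ (((m + 1 : ℕ) : ℝ) + θ + η) := by
        rw [← Real.rpow_add hH0, ← add_assoc]
        gcongr
        linarith
    _ = _ := by ring

/-- **Frey's constant in the box.** -/
theorem box_frey_eps {m : ℕ} (hm : 2 ≤ m) {C₀ : ℝ} (hC₀ : HeightBound (m + 1) (m / 2) C₀)
    {ε : ℝ} (hε : 0 < ε) : ∃ δ : ℝ, 0 < δ ∧ ∃ C : ℝ, 0 < C ∧ ∀ H : ℕ, 1 ≤ H →
    ∀ T : Finset (Fin (m + 2) → ℤ),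
      (∀ a ∈ T, (∀ i, (a i).natAbs ≤ H) ∧
        ¬ FreyHolds (m + 1) (((m / 2 : ℕ) : ℝ) / 2 + ε) C₀ (poly a)) →
      (T.card : ℝ) ≤ C * (H : ℝ) ^ (((m + 1 : ℕ) : ℝ) + 1 - δ) := by
  set g : ℝ := ((m / 2 : ℕ) : ℝ) with hg
  have hg0 : 0 ≤ g := by positivity
  have hκ : 0 < g / 2 + ε := by positivity
  set δ : ℝ := ε / (g + 2 * ε) with hδ
  have hden : 0 < g + 2 * ε := by positivity
  have hδ0 : 0 < δ := by positivity
  obtain ⟨C, hC, h⟩ := box_frey hm hC₀ hκ hδ0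
  refine ⟨δ, hδ0, C, hC, ?_⟩
  intro H hH T hT
  refine (h H hH T hT).trans (le_of_eq ?_)
  congr 2
  rw [hδ]
  field_simp
  ring

end Pool.Agent.Helper5Frey
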