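import Mathlib

/-!
# Definitions for the hand-in on Frey's height conjecture

Everything is explicit: a polynomial with integer coefficients, the Gram matrix of its
hyperelliptic differentials, the height attached to it, and the primes at which its reduction has
exactly one double root.
-/

namespace Pool.Agent.Helper5Frey

open Polynomial MeasureTheory
open scoped ComplexOrder

/-- The polynomial with coefficient vector `a`. -/
noncomputable def poly {n : ℕ} (a : Fin (n + 1) → ℤ) : ℤ[X] :=
  ∑ i : Fin (n + 1), C (a i) * X ^ (i : ℕ)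

/-- The odd primes `p`, not dividing the leading coefficient of `f`, such that `f` modulo `p` has
exactly `deg f - 1` distinct roots in an algebraic closure of the field with `p` elements (one
double root, the others simple). -/
def nodePrimes (f : ℤ[X]) : Set ℕ :=
  {p | ∃ hp : p.Prime, p ≠ 2 ∧ ¬ (p : ℤ) ∣ f.leadingCoeff ∧
    haveI : Fact p.Prime := ⟨hp⟩
    {x : AlgebraicClosure (ZMod p) |
      eval₂ (Int.castRingHom (AlgebraicClosure (ZMod p))) x f = 0}.ncard = f.natDegree - 1}

/-- The product of the node primes. -/
noncomputable def Nstar (f : ℤ[X]) : ℕ := ∏ᶠ p ∈ nodePrimes f, p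

/-- The Gram matrix of the differentials `x ^ i dx / (2 y)`, `i < g`, on `y ^ 2 = f x`:
the entry `(i, j)` is half the integral over the complex plane of `z ^ i * conj z ^ j / |f z|`. -/
noncomputable def gram (g : ℕ) (f : ℤ[X]) : Matrix (Fin g) (Fin g) ℂ :=
  Matrix.of fun i j => (1 / 2 : ℂ) * ∫ z : ℂ, z ^ (i : ℕ) * (starRingEnd ℂ z) ^ (j : ℕ) /
    ((‖eval₂ (Int.castRingHom ℂ) z f‖ : ℝ) : ℂ)

/-- The Weierstrass height: minus one half of the logarithm of the Gram determinant. -/
noncomputable def hW (g : ℕ) (f : ℤ[X]) : ℝ := -(1 / 2) * Real.log (gram g f).det.re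

/-- The polynomial `f` has degree `n` and no multiple root, the integrals in its Gram matrix
converge (absolutely), the Gram matrix is positive definite, there are finitely many node primes,
and the Weierstrass height is at most `κ` times the logarithm of the product of the node primes,
plus `C₀`. Here the genus is `g = (n - 1) / 2`, rounded down. -/
def FreyHolds (n : ℕ) (κ C₀ : ℝ) (f : ℤ[X]) : Prop :=
  f.natDegree = n ∧ (f.map (Int.castRingHom ℚ)).Separable ∧
    (∀ i j : Fin ((n - 1) / 2), Integrable (fun z : ℂ => z ^ (i : ℕ) *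
      (starRingEnd ℂ z) ^ (j : ℕ) / ((‖eval₂ (Int.castRingHom ℂ) z f‖ : ℝ) : ℂ))) ∧
    (gram ((n - 1) / 2) f).PosDef ∧ (nodePrimes f).Finite ∧
    hW ((n - 1) / 2) f ≤ κ * Real.log (Nstar f) + C₀

/-- The polynomial `f` has `deg f - 1` distinct critical values over the complex numbers. -/
def Morse (f : ℤ[X]) : Prop :=
  {w : ℂ | ∃ ξ : ℂ, eval₂ (Int.castRingHom ℂ) ξ (derivative f) = 0 ∧
    w = eval₂ (Int.castRingHom ℂ) ξ f}.ncard = f.natDegree - 1

end Pool.Agent.Helper5Frey
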