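import Pool.Agent.Helper5_Frey.Res

/-!
# Genericity and polynomial bounds
-/

namespace Pool.Agent.Helper5Frey

open Polynomial

/-- Polynomial bound for an integer polynomial in several variables. -/
lemma mv_bound {σ : Type*} (Q : MvPolynomial σ ℤ) : ∃ C B : ℕ, ∀ (H : ℕ) (b : σ → ℤ), 1 ≤ H →
    (∀ i, (b i).natAbs ≤ H) → (MvPolynomial.eval b Q).natAbs ≤ C * H ^ B := by
  induction Q using MvPolynomial.induction_on with
  | C a => exact ⟨a.natAbs, 0, fun H b _ _ => by simp⟩
  | add p q hp hq =>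
    obtain ⟨C1, B1, h1⟩ := hp
    obtain ⟨C2, B2, h2⟩ := hq
    refine ⟨C1 + C2, max B1 B2, fun H b hH hb => ?_⟩
    rw [map_add]
    calc _ ≤ (MvPolynomial.eval b p).natAbs + (MvPolynomial.eval b q).natAbs :=
          Int.natAbs_add_le _ _
      _ ≤ C1 * H ^ B1 + C2 * H ^ B2 := add_le_add (h1 H b hH hb) (h2 H b hH hb)
      _ ≤ C1 * H ^ (max B1 B2) + C2 * H ^ (max B1 B2) := by
          gcongr
          · exact le_max_left _ _
          · exact le_max_right _ _
      _ = (C1 + C2) * H ^ (max B1 B2) := by ring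
  | mul_X p i hp =>
    obtain ⟨C1, B1, h1⟩ := hp
    refine ⟨C1, B1 + 1, fun H b hH hb => ?_⟩
    rw [map_mul, MvPolynomial.eval_X, Int.natAbs_mul]
    calc _ ≤ C1 * H ^ B1 * H := Nat.mul_le_mul (h1 H b hH hb) (hb i)
      _ = C1 * H ^ (B1 + 1) := by ring

/-- The same with one more variable. -/
lemma poly_bound {σ : Type*} (Q : (MvPolynomial σ ℤ)[X]) : ∃ C B : ℕ, ∀ (H : ℕ) (b : σ → ℤ)
    (c : ℤ), 1 ≤ H → (∀ i, (b i).natAbs ≤ H) → c.natAbs ≤ H →
    ((Q.map (MvPolynomial.eval b)).eval c).natAbs ≤ C * H ^ B := by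
  induction Q using Polynomial.induction_on' with
  | add p q hp hq =>
    obtain ⟨C1, B1, h1⟩ := hp
    obtain ⟨C2, B2, h2⟩ := hq
    refine ⟨C1 + C2, max B1 B2, fun H b c hH hb hc => ?_⟩
    rw [Polynomial.map_add, eval_add]
    calc _ ≤ _ + _ := Int.natAbs_add_le _ _
      _ ≤ C1 * H ^ B1 + C2 * H ^ B2 := add_le_add (h1 H b c hH hb hc) (h2 H b c hH hb hc)
      _ ≤ C1 * H ^ (max B1 B2) + C2 * H ^ (max B1 B2) := by
          gcongr
          · exact le_max_left _ _
          · exact le_max_right _ _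
      _ = (C1 + C2) * H ^ (max B1 B2) := by ring
  | monomial k a =>
    obtain ⟨C1, B1, h1⟩ := mv_bound a
    refine ⟨C1, B1 + k, fun H b c hH hb hc => ?_⟩
    rw [map_monomial, eval_monomial, Int.natAbs_mul, Int.natAbs_pow]
    calc _ ≤ C1 * H ^ B1 * H ^ k := Nat.mul_le_mul (h1 H b hH hb) (Nat.pow_le_pow_left hc k)
      _ = C1 * H ^ (B1 + k) := by ring

section generic

variable {m : ℕ}

/-- The universal coefficient vector. -/
noncomputable def bU (m : ℕ) : Fin (m + 1) → MvPolynomial (Fin (m + 1)) ℤ := MvPolynomial.X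

lemma RT_univ (b : Fin (m + 1) → ℤ) : RT b = (RT (bU m)).map (MvPolynomial.eval b) := by
  rw [RT_map]
  congr 1
  ext i
  simp [bU]

lemma D2_univ (b : Fin (m + 1) → ℤ) : D2 b = MvPolynomial.eval b (D2 (bU m)) := by
  rw [D2_map]
  congr 1
  ext i
  simp [bU]

/-- The universal bad modulus. -/
noncomputable def MU (m : ℕ) : MvPolynomial (Fin (m + 1)) ℤ :=
  2 * ((m + 1 : ℕ) : MvPolynomial (Fin (m + 1)) ℤ) * MvPolynomial.X (Fin.last m) * D2 (bU m)

/-- The bad modulus. -/
noncomputable def Mv (b : Fin (m + 1) → ℤ) : ℤ :=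
  2 * ((m + 1 : ℕ) : ℤ) * b (Fin.last m) * D2 b

lemma Mv_eq (b : Fin (m + 1) → ℤ) : Mv b = MvPolynomial.eval b (MU m) := by
  unfold Mv MU
  rw [D2_univ]
  simp

/-- The special point `X ^ (m + 1) - (m + 1) X`. -/
noncomputable def bC (m : ℕ) : Fin (m + 1) → ℂ :=
  fun i => if i = Fin.last m then 1 else if i = 0 then -((m : ℂ) + 1) else 0

lemma f0_bC (hm : m ≠ 0) : f0 (bC m) = X ^ (m + 1) - C ((m : ℂ) + 1) * X := by
  unfold f0
  have h0 : (0 : Fin (m + 1)) ≠ Fin.last m := by
    intro h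
    have := congrArg Fin.val h
    simp at this
    exact hm this.symm
  rw [Finset.sum_eq_add (0 : Fin (m + 1)) (Fin.last m) h0]
  · simp only [bC, if_neg h0, if_true]
    simp
    ring
  · intro i _ hi
    simp [bC, hi.1, hi.2]
  · intro h
    exact absurd (Finset.mem_univ _) h
  · intro h
    exact absurd (Finset.mem_univ _) h

lemma deriv_f0_bC (hm : m ≠ 0) :
    derivative (f0 (bC m)) = C ((m : ℂ) + 1) * (X ^ m - C 1) := by
  rw [f0_bC hm]
  simp
  ring

/-- Distinct critical values give `Δ₂ ≠ 0`. -/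
lemma D2_ne_zero_of_nodup (b : Fin (m + 1) → ℂ)
    (h : ((m + 1 : ℕ) : ℂ) * b (Fin.last m) ≠ 0)
    (hnd : ((derivative (f0 b)).roots.map (fun ξ => (f0 b).eval ξ)).Nodup) : D2 b ≠ 0 := by
  obtain ⟨hd, hl⟩ := RT_natDegree_leadingCoeff b h
  have hd' : (derivative (RT b)).natDegree = m - 1 := by
    rw [natDegree_derivative, hd]
  have hRT0 : RT b ≠ 0 := by
    intro h0
    rw [h0] at hl
    simp only [leadingCoeff_zero] at hl
    exact pow_ne_zero _ h hl.symm
  have hroots : (RT b).roots =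
      ((derivative (f0 b)).roots.map (fun ξ => (f0 b).eval ξ)).map (fun w => -w) := by
    rw [RT_prod b h, roots_C_mul _ (pow_ne_zero _ h)]
    rw [← roots_multiset_prod_X_sub_C (((derivative (f0 b)).roots.map
      (fun ξ => (f0 b).eval ξ)).map (fun w => -w)), Multiset.map_map, Multiset.map_map]
    congr 2
    apply Multiset.map_congr rfl
    intro ξ _
    simp
  have hsep : (RT b).Separable := by
    rw [← nodup_roots_iff_of_splits hRT0 (IsAlgClosed.splits _), hroots]
    exact hnd.map neg_injective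
  unfold D2
  have h2 : resultant (RT b) (derivative (RT b)) m (m - 1) =
      resultant (RT b) (derivative (RT b)) := by
    rw [hd, hd']
  rw [h2, Ne, resultant_eq_zero_iff]
  rintro ⟨_, h3⟩
  exact h3 hsep

lemma D2_bC_ne_zero (hm : m ≠ 0) : D2 (bC m) ≠ 0 := by
  have hm1 : (m : ℂ) + 1 ≠ 0 := by exact_mod_cast Nat.succ_ne_zero m
  have hlast : bC m (Fin.last m) = 1 := by simp [bC]
  have h : ((m + 1 : ℕ) : ℂ) * bC m (Fin.last m) ≠ 0 := by
    rw [hlast, mul_one]
    exact_mod_cast Nat.succ_ne_zero m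
  have hsepG : (derivative (f0 (bC m))).roots.Nodup := by
    rw [deriv_f0_bC hm, roots_C_mul _ hm1]
    apply nodup_roots
    apply separable_X_pow_sub_C (1 : ℂ) (by exact_mod_cast hm) one_ne_zero
  have hroot : ∀ ξ ∈ (derivative (f0 (bC m))).roots, (f0 (bC m)).eval ξ = -(m * ξ) := by
    intro ξ hξ
    rw [deriv_f0_bC hm, roots_C_mul _ hm1, mem_roots'] at hξ
    have h1 : ξ ^ m = 1 := by
      have := hξ.2
      simp [IsRoot] at this
      linear_combination this
    rw [f0_bC hm]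
    simp [pow_succ, h1]
    ring
  apply D2_ne_zero_of_nodup (bC m) h
  apply Multiset.Nodup.map_on _ hsepG
  intro x hx y hy hxy
  rw [hroot x hx, hroot y hy, neg_inj] at hxy
  have : (m : ℂ) ≠ 0 := by exact_mod_cast hm
  exact mul_left_cancel₀ this hxy

lemma Mv_ne_zero_of_morse (b : Fin (m + 1) → ℤ) (hb : b (Fin.last m) ≠ 0)
    (hM : Morse (f0 b)) : Mv b ≠ 0 := by
  classical
  set bc : Fin (m + 1) → ℂ := fun i => ((b i : ℤ) : ℂ) with hbc
  have hf : (f0 b).map (Int.castRingHom ℂ) = f0 bc := by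
    rw [f0_map]
    rfl
  have hlast : bc (Fin.last m) ≠ 0 := Int.cast_ne_zero.mpr hb
  have h : ((m + 1 : ℕ) : ℂ) * bc (Fin.last m) ≠ 0 := by
    apply mul_ne_zero _ hlast
    exact_mod_cast Nat.succ_ne_zero m
  have hdeg : (f0 b).natDegree = m + 1 := by
    apply le_antisymm (f0_natDegree_le b)
    apply le_natDegree_of_ne_zero
    rwa [f0_coeff_last]
  have hd0 : derivative (f0 bc) ≠ 0 := by
    intro h0
    have := deriv_coeff_last bc
    rw [h0, coeff_zero] at this
    exact h this.symm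
  have hset : {w : ℂ | ∃ ξ : ℂ, eval₂ (Int.castRingHom ℂ) ξ (derivative (f0 b)) = 0 ∧
      w = eval₂ (Int.castRingHom ℂ) ξ (f0 b)} =
      (((derivative (f0 bc)).roots.map (fun ξ => (f0 bc).eval ξ)).toFinset : Set ℂ) := by
    ext w
    rw [Set.mem_ofPred_eq, Finset.mem_coe, Multiset.mem_toFinset, Multiset.mem_map]
    constructor
    · rintro ⟨ξ, h1, h2⟩
      refine ⟨ξ, ?_, ?_⟩
      · rw [mem_roots hd0, IsRoot.def, ← hf, derivative_map, eval_map]
        exact h1
      · rw [← hf, eval_map]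
        exact h2.symm
    · rintro ⟨ξ, h1, h2⟩
      refine ⟨ξ, ?_, ?_⟩
      · rw [mem_roots hd0, IsRoot.def, ← hf, derivative_map, eval_map] at h1
        exact h1
      · rw [← hf, eval_map] at h2
        exact h2.symm
  unfold Morse at hM
  rw [hset, Set.ncard_coe_finset, hdeg] at hM
  have hcard : ((derivative (f0 bc)).roots.map (fun ξ => (f0 bc).eval ξ)).card = m := by
    rw [Multiset.card_map, ← (IsAlgClosed.splits _).natDegree_eq_card_roots,
      deriv_natDegree_eq bc h]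
  have hnd : ((derivative (f0 bc)).roots.map (fun ξ => (f0 bc).eval ξ)).Nodup := by
    rw [← Multiset.toFinset_card_eq_card_iff_nodup, hcard, hM]
    omega
  have hD := D2_ne_zero_of_nodup bc h hnd
  have hD' : D2 b ≠ 0 := by
    intro h0
    apply hD
    have := D2_map (Int.castRingHom ℂ) b
    rw [h0, map_zero] at this
    rw [hbc]
    simpa using this.symm
  unfold Mv
  refine mul_ne_zero (mul_ne_zero (mul_ne_zero two_ne_zero ?_) hb) hD'
  exact_mod_cast Nat.succ_ne_zero m

lemma MU_ne_zero (hm : m ≠ 0) : MU m ≠ 0 := by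
  unfold MU
  refine mul_ne_zero (mul_ne_zero (mul_ne_zero two_ne_zero ?_) (MvPolynomial.X_ne_zero _)) ?_
  · exact_mod_cast Nat.succ_ne_zero m
  · intro h
    apply D2_bC_ne_zero (m := m) hm
    have := D2_map (MvPolynomial.eval₂Hom (Int.castRingHom ℂ) (bC m)) (bU m)
    rw [h, map_zero] at this
    rw [this]
    congr 1
    ext i
    simp [bU]

end generic

end Pool.Agent.Helper5Frey
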