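import Pool.Agent.Helper5_Frey.Moment

/-!
# Integrability of `z ^ i * conj z ^ j / |F z|`
-/

namespace Pool.Agent.Helper5Frey

open MeasureTheory Metric ComplexConjugate Polynomial Filter Topology Asymptotics

/-- Lower bound for a polynomial near infinity. -/
lemma lower_infty (F : ℂ[X]) (hF : F ≠ 0) : ∃ c : ℝ, 0 < c ∧ ∃ ρ : ℝ, 1 ≤ ρ ∧ ∀ z : ℂ, ρ ≤ ‖z‖ →
    c * ‖z‖ ^ F.natDegree ≤ ‖F.eval z‖ := by
  set n := F.natDegree with hn
  set S : ℝ := ∑ k ∈ Finset.range n, ‖F.coeff k‖ with hS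
  have ha : 0 < ‖F.coeff n‖ := norm_pos_iff.mpr (by
    rw [hn, coeff_natDegree]
    exact leadingCoeff_ne_zero.mpr hF)
  have hS0 : 0 ≤ S := Finset.sum_nonneg fun _ _ => norm_nonneg _
  refine ⟨‖F.coeff n‖ / 2, by positivity, 1 + 2 * S / ‖F.coeff n‖, ?_, ?_⟩
  · have : 0 ≤ 2 * S / ‖F.coeff n‖ := by positivity
    linarith
  · intro z hz
    have h0 : 0 ≤ 2 * S / ‖F.coeff n‖ := by positivity
    have hz1 : 1 ≤ ‖z‖ := by linarith
    have hz2 : 2 * S / ‖F.coeff n‖ ≤ ‖z‖ := by linarith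
    rw [div_le_iff₀ ha] at hz2
    have hsum : ‖z‖ * ‖∑ k ∈ Finset.range n, F.coeff k * z ^ k‖ ≤ S * ‖z‖ ^ n := by
      calc ‖z‖ * ‖∑ k ∈ Finset.range n, F.coeff k * z ^ k‖
          ≤ ‖z‖ * ∑ k ∈ Finset.range n, ‖F.coeff k‖ * ‖z‖ ^ k := by
            gcongr
            refine (norm_sum_le _ _).trans (le_of_eq ?_)
            apply Finset.sum_congr rfl
            intro k _
            rw [norm_mul, norm_pow]
        _ = ∑ k ∈ Finset.range n, ‖F.coeff k‖ * ‖z‖ ^ (k + 1) := by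
            rw [Finset.mul_sum]
            apply Finset.sum_congr rfl
            intro k _
            ring
        _ ≤ ∑ k ∈ Finset.range n, ‖F.coeff k‖ * ‖z‖ ^ n := by
            apply Finset.sum_le_sum
            intro k hk
            rw [Finset.mem_range] at hk
            apply mul_le_mul_of_nonneg_left _ (norm_nonneg _)
            exact pow_le_pow_right₀ hz1 (by omega)
        _ = S * ‖z‖ ^ n := by rw [← Finset.sum_mul]
    have heval : F.eval z = ∑ k ∈ Finset.range n, F.coeff k * z ^ k + F.coeff n * z ^ n := by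
      rw [eval_eq_sum_range, Finset.sum_range_succ]
    have hnorm : ‖F.coeff n‖ * ‖z‖ ^ n - ‖∑ k ∈ Finset.range n, F.coeff k * z ^ k‖ ≤
        ‖F.eval z‖ := by
      rw [heval, add_comm, ← norm_pow, ← norm_mul]
      exact norm_sub_le_norm_add _ _
    have hP : 0 ≤ ‖z‖ ^ n := by positivity
    have hz0 : 0 < ‖z‖ := by linarith
    have h3 : ‖∑ k ∈ Finset.range n, F.coeff k * z ^ k‖ ≤ ‖F.coeff n‖ / 2 * ‖z‖ ^ n := by
      have h4 : ‖z‖ * ‖∑ k ∈ Finset.range n, F.coeff k * z ^ k‖ ≤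
          ‖z‖ * (‖F.coeff n‖ / 2 * ‖z‖ ^ n) := by
        refine hsum.trans ?_
        have : S ≤ ‖z‖ * ‖F.coeff n‖ / 2 := by linarith
        calc S * ‖z‖ ^ n ≤ (‖z‖ * ‖F.coeff n‖ / 2) * ‖z‖ ^ n := by gcongr
          _ = _ := by ring
      exact le_of_mul_le_mul_left h4 hz0
    linarith

/-- Near every point `1 / |F|` is at most a constant times `1 + 1 / |z - x|`. -/
lemma isBigO_near (F : ℂ[X]) (hF : F.Separable) (x : ℂ) :
    (fun z : ℂ => ‖F.eval z‖⁻¹) =O[𝓝 x] (fun z : ℂ => 1 + ‖z - x‖⁻¹) := by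
  by_cases hx : F.eval x = 0
  · obtain ⟨G, hG⟩ := dvd_iff_isRoot.mpr hx
    have hGx : G.eval x ≠ 0 := by
      intro h0
      obtain ⟨a, b, hab⟩ := hF
      have := congrArg (eval x) hab
      rw [hG] at this
      simp [h0] at this
    have hcont : ContinuousAt (fun z : ℂ => ‖G.eval z‖⁻¹) x := by
      apply ContinuousAt.inv₀
      · exact (Polynomial.continuous G).norm.continuousAt
      · simpa using hGx
    have h1 : (fun z : ℂ => ‖G.eval z‖⁻¹) =O[𝓝 x] (fun _ : ℂ => (1 : ℝ)) := hcont.isBigO_one ℝ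
    have h2 : (fun z : ℂ => ‖z - x‖⁻¹) =O[𝓝 x] (fun z : ℂ => 1 + ‖z - x‖⁻¹) := by
      apply IsBigO.of_bound 1
      filter_upwards with z
      have : 0 ≤ ‖z - x‖⁻¹ := by positivity
      rw [Real.norm_eq_abs, Real.norm_eq_abs, abs_of_nonneg this, abs_of_nonneg (by linarith)]
      linarith
    have h3 := h2.mul h1
    simp only [mul_one] at h3
    refine h3.congr_left fun z => ?_
    rw [hG, eval_mul]
    simp [mul_comm]
  · have hcont : ContinuousAt (fun z : ℂ => ‖F.eval z‖⁻¹) x := by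
      apply ContinuousAt.inv₀
      · exact (Polynomial.continuous F).norm.continuousAt
      · simpa using hx
    have h1 : (fun z : ℂ => ‖F.eval z‖⁻¹) =O[𝓝 x] (fun _ : ℂ => (1 : ℝ)) := hcont.isBigO_one ℝ
    refine h1.trans ?_
    apply IsBigO.of_bound 1
    filter_upwards with z
    have : 0 ≤ ‖z - x‖⁻¹ := by positivity
    rw [Real.norm_eq_abs, Real.norm_eq_abs, abs_of_nonneg zero_le_one,
      abs_of_nonneg (by linarith)]
    linarith

lemma integrableOn_inv_norm (x : ℂ) : IntegrableOn (fun z : ℂ => ‖z - x‖⁻¹) (ball x 1) := by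
  have h0 : IntegrableOn (fun z : ℂ => ‖z‖⁻¹) (ball (0 : ℂ) 1) := by
    have hα : (1 : ℝ) < (Module.finrank ℝ ℂ : ℝ) := by
      rw [Complex.finrank_real_complex]
      norm_num
    have hd : 1 ≤ Module.finrank ℝ ℂ := by
      rw [Complex.finrank_real_complex]
      norm_num
    have hdec : ∀ᵐ z : ℂ ∂(volume.restrict (ball (0 : ℂ) 1)), ‖‖z‖⁻¹‖ ≤ 1 * ‖z‖ ^ (-(1 : ℝ)) := by
      filter_upwards with z
      rw [Real.rpow_neg (norm_nonneg z), Real.rpow_one, one_mul, norm_inv, norm_norm]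
    have hme : AEStronglyMeasurable (fun z : ℂ => ‖z‖⁻¹) volume := by
      have : Measurable (fun z : ℂ => ‖z‖⁻¹) := measurable_norm.inv
      exact this.aestronglyMeasurable
    exact integrableOn_ball_of_norm_le_rpow hd hα hdec hme
  have h1 := (measurePreserving_sub_right (volume : Measure ℂ) x).integrableOn_comp_preimage
    (measurableEmbedding_subRight x) (f := fun z : ℂ => ‖z‖⁻¹) (s := ball (0 : ℂ) 1)
  have h2 : (fun z : ℂ => z - x) ⁻¹' (ball (0 : ℂ) 1) = ball x 1 := by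
    ext z
    simp [dist_eq_norm]
  rw [h2] at h1
  exact h1.mpr h0

lemma integrableAtFilter_near (x : ℂ) :
    IntegrableAtFilter (fun z : ℂ => 1 + ‖z - x‖⁻¹) (𝓝 x) := by
  refine ⟨ball x 1, ball_mem_nhds x one_pos, ?_⟩
  apply Integrable.add
  · exact integrableOn_const (by exact measure_ball_lt_top.ne)
  · exact integrableOn_inv_norm x

lemma measurable_kernel (F : ℂ[X]) (i j : ℕ) :
    Measurable (fun z : ℂ => z ^ i * conj z ^ j * ((‖F.eval z‖⁻¹ : ℝ) : ℂ)) := by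
  have h1 : Measurable (fun z : ℂ => z ^ i * conj z ^ j) := by
    have : Continuous (fun z : ℂ => z ^ i * conj z ^ j) := by fun_prop
    exact this.measurable
  have h2 : Measurable (fun z : ℂ => ‖F.eval z‖⁻¹) :=
    ((Polynomial.continuous F).norm.measurable).inv
  exact h1.mul (Complex.measurable_ofReal.comp h2)

lemma isBigO_kernel (F : ℂ[X]) (hF : F.Separable) (i j : ℕ) (x : ℂ) :
    (fun z : ℂ => z ^ i * conj z ^ j * ((‖F.eval z‖⁻¹ : ℝ) : ℂ)) =O[𝓝 x]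
      (fun z : ℂ => 1 + ‖z - x‖⁻¹) := by
  have h1 : (fun z : ℂ => z ^ i * conj z ^ j) =O[𝓝 x] (fun _ : ℂ => (1 : ℝ)) := by
    have : Continuous (fun z : ℂ => z ^ i * conj z ^ j) := by fun_prop
    exact this.continuousAt.isBigO_one ℝ
  have h2 : (fun z : ℂ => ((‖F.eval z‖⁻¹ : ℝ) : ℂ)) =O[𝓝 x] (fun z : ℂ => 1 + ‖z - x‖⁻¹) := by
    refine IsBigO.trans ?_ (isBigO_near F hF x)
    apply IsBigO.of_bound 1
    filter_upwards with z
    rw [Complex.norm_real, one_mul]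
  have h3 := h1.mul h2
  simpa using h3

lemma isBigO_kernel_infty (F : ℂ[X]) (hF : F ≠ 0) (i j : ℕ) (hij : i + j + 3 ≤ F.natDegree) :
    (fun z : ℂ => z ^ i * conj z ^ j * ((‖F.eval z‖⁻¹ : ℝ) : ℂ)) =O[cocompact ℂ]
      (fun z : ℂ => (1 + ‖z‖) ^ (-(3 : ℝ))) := by
  obtain ⟨c, hc, ρ, hρ, h⟩ := lower_infty F hF
  apply IsBigO.of_bound (c⁻¹ * 8)
  have hev : ∀ᶠ z : ℂ in cocompact ℂ, ρ ≤ ‖z‖ :=
    tendsto_norm_cocompact_atTop.eventually (eventually_ge_atTop ρ)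
  filter_upwards [hev] with z hz
  have hz1 : 1 ≤ ‖z‖ := hρ.trans hz
  have hz0 : 0 < ‖z‖ := by linarith
  have hFz := h z hz
  have hpos : 0 < c * ‖z‖ ^ F.natDegree := by positivity
  rw [norm_mul, norm_mul, norm_pow, norm_pow, RCLike.norm_conj, Complex.norm_real, norm_inv,
    norm_norm, Real.norm_eq_abs, abs_of_nonneg (by positivity), Real.rpow_neg (by positivity)]
  have h3 : (1 + ‖z‖) ^ (3 : ℝ) = (1 + ‖z‖) ^ 3 := by
    exact_mod_cast Real.rpow_natCast (1 + ‖z‖) 3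
  rw [h3]
  have h4 : (1 + ‖z‖) ^ 3 ≤ 8 * ‖z‖ ^ 3 := by
    calc (1 + ‖z‖) ^ 3 ≤ (2 * ‖z‖) ^ 3 := by gcongr; linarith
      _ = 8 * ‖z‖ ^ 3 := by ring
  calc ‖z‖ ^ i * ‖z‖ ^ j * ‖F.eval z‖⁻¹ ≤ ‖z‖ ^ i * ‖z‖ ^ j * (c * ‖z‖ ^ F.natDegree)⁻¹ := by
        gcongr
    _ ≤ c⁻¹ * 8 * ((1 + ‖z‖) ^ 3)⁻¹ := by
        rw [← pow_add, mul_inv, ← div_eq_mul_inv (c⁻¹ * 8), le_div_iff₀ (by positivity)]
        have h5 : ‖z‖ ^ (i + j) * ‖z‖ ^ 3 ≤ ‖z‖ ^ F.natDegree := by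
          rw [← pow_add]
          exact pow_le_pow_right₀ hz1 hij
        calc ‖z‖ ^ (i + j) * (c⁻¹ * (‖z‖ ^ F.natDegree)⁻¹) * (1 + ‖z‖) ^ 3
            ≤ ‖z‖ ^ (i + j) * (c⁻¹ * (‖z‖ ^ F.natDegree)⁻¹) * (8 * ‖z‖ ^ 3) := by gcongr
          _ = c⁻¹ * 8 * ((‖z‖ ^ (i + j) * ‖z‖ ^ 3) * (‖z‖ ^ F.natDegree)⁻¹) := by ring
          _ ≤ c⁻¹ * 8 * (‖z‖ ^ F.natDegree * (‖z‖ ^ F.natDegree)⁻¹) := by gcongr
          _ = c⁻¹ * 8 := by
              rw [mul_inv_cancel₀ (by positivity), mul_one]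

/-- The kernel is integrable. -/
theorem integrable_kernel (F : ℂ[X]) (hF : F.Separable) (i j : ℕ)
    (hij : i + j + 3 ≤ F.natDegree) :
    Integrable (fun z : ℂ => z ^ i * conj z ^ j * ((‖F.eval z‖⁻¹ : ℝ) : ℂ)) := by
  have hloc : LocallyIntegrable
      (fun z : ℂ => z ^ i * conj z ^ j * ((‖F.eval z‖⁻¹ : ℝ) : ℂ)) := by
    intro x
    apply (isBigO_kernel F hF i j x).integrableAtFilter _ (integrableAtFilter_near x)
    exact (measurable_kernel F i j).aestronglyMeasurable.stronglyMeasurableAtFilter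
  apply hloc.integrable_of_isBigO_cocompact (isBigO_kernel_infty F hF.ne_zero i j hij)
  have := integrable_one_add_norm (E := ℂ) (μ := volume) (r := 3) (by
    rw [Complex.finrank_real_complex]
    norm_num)
  exact this.integrableAtFilter _

end Pool.Agent.Helper5Frey
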