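import Pool.Agent.Helper5_Frey.Local

/-!
# Counting on a line
-/

namespace Pool.Agent.Helper5Frey

open Polynomial

variable {m : ℕ}

lemma RT_natDegree_int (b : Fin (m + 1) → ℤ) (hb : b (Fin.last m) ≠ 0) :
    (RT b).natDegree = m := by
  have h1 : (((m + 1 : ℕ) : ℂ)) * ((b (Fin.last m) : ℤ) : ℂ) ≠ 0 := by
    apply mul_ne_zero
    · exact_mod_cast Nat.succ_ne_zero m
    · exact_mod_cast hb
  have h2 := (RT_natDegree_leadingCoeff (fun i => ((b i : ℤ) : ℂ)) h1).1
  have h3 := RT_map (Int.castRingHom ℂ) b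
  simp only [eq_intCast] at h3
  rw [← h3, natDegree_map_eq_of_injective (RingHom.injective_int _)] at h2
  exact h2

lemma card_fiber (b : Fin (m + 1) → ℤ) (hm : m ≠ 0) (hb : b (Fin.last m) ≠ 0) (v : ℤ)
    (s : Finset ℤ) : (s.filter (fun c => (RT b).eval c = v)).card ≤ m := by
  classical
  have hd := RT_natDegree_int b hb
  have hne : RT b - C v ≠ 0 := by
    intro h
    have h1 : RT b = C v := by linear_combination h
    rw [h1, natDegree_C] at hd
    exact hm hd.symm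
  calc (s.filter (fun c => (RT b).eval c = v)).card
      ≤ (RT b - C v).roots.toFinset.card := by
        apply Finset.card_le_card
        intro c hc
        rw [Finset.mem_filter] at hc
        rw [Multiset.mem_toFinset, mem_roots hne]
        simp [hc.2]
    _ ≤ (RT b - C v).roots.card := Multiset.toFinset_card_le _
    _ ≤ (RT b - C v).natDegree := card_roots' _
    _ ≤ m := natDegree_sub_C.le.trans hd.le

/-- **Counting on a line**: few constant terms give a small `Nstar`. -/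
theorem line_count (hm : m ≠ 0) {η : ℝ} (hη : 0 < η) :
    ∃ C : ℝ, 0 < C ∧ ∀ H : ℕ, 1 ≤ H → ∀ b : Fin (m + 1) → ℤ, (∀ i, (b i).natAbs ≤ H) →
      Mv b ≠ 0 → ∀ Y : ℝ, 1 ≤ Y →
      (((Finset.Icc (-(H : ℤ)) H).filter (fun c => (RT b).eval c = 0 ∨
        (Nstar (f0 b + Polynomial.C c) : ℝ) ≤ Y)).card : ℝ) ≤
        C * Y * (Y * H) ^ η := by
  classical
  obtain ⟨C1, B1, hR⟩ := poly_bound (RT (bU m))
  obtain ⟨C2, B2, hM⟩ := mv_bound (MU m)
  set η' : ℝ := η / (B1 + B2 + 1) with hη'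
  have hden : (0 : ℝ) < B1 + B2 + 1 := by positivity
  have hη'0 : 0 < η' := by positivity
  obtain ⟨C3, hC3, hrank⟩ := rankin_count hη'0
  refine ⟨m + 1 + 2 * m * (C3 * ((C1 + 1 : ℝ) * (C2 + 1)) ^ η'), by positivity, ?_⟩
  intro H hH b hb hMb Y hY1
  have hH1 : (1 : ℝ) ≤ H := by exact_mod_cast hH
  have hH0 : (0 : ℝ) < H := by linarith
  have hY0 : 0 < Y := by linarith
  have hb0 : b (Fin.last m) ≠ 0 := by
    intro h0
    apply hMb
    simp [Mv, h0]
  set K : ℕ := (Mv b).natAbs with hK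
  have hK1 : 1 ≤ K := Int.natAbs_pos.mpr hMb
  set X : ℕ := C1 * H ^ B1 with hX
  have hKle : K ≤ C2 * H ^ B2 := by
    rw [hK, Mv_eq]
    exact hM H b hH hb
  have hXle : ∀ c ∈ Finset.Icc (-(H : ℤ)) H, ((RT b).eval c).natAbs ≤ X := by
    intro c hc
    rw [Finset.mem_Icc] at hc
    rw [RT_univ]
    apply hR H b c hH hb
    omega
  set V := (Finset.Icc 1 X).filter (fun v => (partRad K v : ℝ) ≤ Y) with hV
  have hsub : (Finset.Icc (-(H : ℤ)) H).filter (fun c => (RT b).eval c = 0 ∨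
        (Nstar (f0 b + Polynomial.C c) : ℝ) ≤ Y) ⊆
      (Finset.Icc (-(H : ℤ)) H).filter (fun c => (RT b).eval c = 0) ∪
      V.biUnion (fun v => (Finset.Icc (-(H : ℤ)) H).filter (fun c => (RT b).eval c = v) ∪
        (Finset.Icc (-(H : ℤ)) H).filter (fun c => (RT b).eval c = -v)) := by
    intro c hc
    rw [Finset.mem_filter] at hc
    obtain ⟨hc1, hc2⟩ := hc
    rw [Finset.mem_union]
    by_cases h0 : (RT b).eval c = 0
    · left
      exact Finset.mem_filter.mpr ⟨hc1, h0⟩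
    · right
      rw [Finset.mem_biUnion]
      refine ⟨((RT b).eval c).natAbs, ?_, ?_⟩
      · rw [hV, Finset.mem_filter, Finset.mem_Icc]
        refine ⟨⟨Int.natAbs_pos.mpr h0, hXle c hc1⟩, ?_⟩
        have h1 := partRad_le_Nstar b hm c hMb h0
        have h2 := hc2.resolve_left h0
        calc ((partRad K ((RT b).eval c).natAbs : ℕ) : ℝ) ≤ Nstar (f0 b + Polynomial.C c) := by
              exact_mod_cast h1
          _ ≤ Y := h2
      · rw [Finset.mem_union, Finset.mem_filter, Finset.mem_filter]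
        rcases Int.natAbs_eq ((RT b).eval c) with h | h
        · left
          exact ⟨hc1, h⟩
        · right
          exact ⟨hc1, h⟩
  have hcard : ((Finset.Icc (-(H : ℤ)) H).filter (fun c => (RT b).eval c = 0 ∨
        (Nstar (f0 b + Polynomial.C c) : ℝ) ≤ Y)).card ≤ m + V.card * (2 * m) := by
    refine (Finset.card_le_card hsub).trans ((Finset.card_union_le _ _).trans ?_)
    apply add_le_add (card_fiber b hm hb0 0 _)
    apply Finset.card_biUnion_le_card_mul
    intro v _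
    refine (Finset.card_union_le _ _).trans ?_
    have h1 := card_fiber b hm hb0 (v : ℤ) (Finset.Icc (-(H : ℤ)) H)
    have h2 := card_fiber b hm hb0 (-(v : ℤ)) (Finset.Icc (-(H : ℤ)) H)
    omega
  have hVc : (V.card : ℝ) ≤ C3 * Y * ((X : ℝ) * Y * K) ^ η' := hrank X K hK1 Y hY1
  have hη'le : η' ≤ η := by
    rw [hη', div_le_iff₀ hden]
    have : (0 : ℝ) ≤ B1 + B2 := by positivity
    nlinarith
  have hXYK : ((X : ℝ) * Y * K) ^ η' ≤ ((C1 + 1 : ℝ) * (C2 + 1)) ^ η' * (Y * H) ^ η := by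
    have h1 : (X : ℝ) * Y * K ≤ ((C1 + 1 : ℝ) * (C2 + 1)) * (Y * (H : ℝ) ^ ((B1 : ℝ) + B2)) := by
      have hx : (X : ℝ) ≤ (C1 + 1 : ℝ) * (H : ℝ) ^ (B1 : ℝ) := by
        rw [hX, Real.rpow_natCast]
        push_cast
        gcongr
        linarith
      have hk : (K : ℝ) ≤ (C2 + 1 : ℝ) * (H : ℝ) ^ (B2 : ℝ) := by
        rw [Real.rpow_natCast]
        calc (K : ℝ) ≤ ((C2 * H ^ B2 : ℕ) : ℝ) := by exact_mod_cast hKle
          _ = C2 * (H : ℝ) ^ B2 := by push_cast; ring
          _ ≤ _ := by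
            gcongr
            linarith
      calc (X : ℝ) * Y * K ≤ ((C1 + 1 : ℝ) * (H : ℝ) ^ (B1 : ℝ)) * Y *
            ((C2 + 1 : ℝ) * (H : ℝ) ^ (B2 : ℝ)) := by gcongr
        _ = ((C1 + 1 : ℝ) * (C2 + 1)) * (Y * ((H : ℝ) ^ (B1 : ℝ) * (H : ℝ) ^ (B2 : ℝ))) := by
            ring
        _ = _ := by
            rw [← Real.rpow_add hH0]
    calc ((X : ℝ) * Y * K) ^ η' ≤
          (((C1 + 1 : ℝ) * (C2 + 1)) * (Y * (H : ℝ) ^ ((B1 : ℝ) + B2))) ^ η' := by
          apply Real.rpow_le_rpow (by positivity) h1 hη'0.le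
      _ = ((C1 + 1 : ℝ) * (C2 + 1)) ^ η' * (Y ^ η' * (H : ℝ) ^ (((B1 : ℝ) + B2) * η')) := by
          rw [Real.mul_rpow (by positivity : (0 : ℝ) ≤ (C1 + 1 : ℝ) * (C2 + 1)) (by positivity),
            Real.mul_rpow hY0.le (by positivity), ← Real.rpow_mul hH0.le]
      _ ≤ ((C1 + 1 : ℝ) * (C2 + 1)) ^ η' * (Y ^ η * (H : ℝ) ^ η) := by
          apply mul_le_mul_of_nonneg_left _ (by positivity)
          apply mul_le_mul
          · exact Real.rpow_le_rpow_of_exponent_le hY1 hη'le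
          · apply Real.rpow_le_rpow_of_exponent_le hH1
            rw [hη', mul_div_assoc', div_le_iff₀ hden]
            nlinarith
          · positivity
          · positivity
      _ = _ := by rw [Real.mul_rpow hY0.le hH0.le]
  set E : ℝ := ((C1 + 1 : ℝ) * (C2 + 1)) ^ η' with hE
  have hE0 : 0 ≤ E := by positivity
  have hYH : 1 ≤ Y * H := one_le_mul_of_one_le_of_one_le hY1 hH1
  have hone : (1 : ℝ) ≤ Y * (Y * H) ^ η :=
    one_le_mul_of_one_le_of_one_le hY1 (Real.one_le_rpow hYH hη.le)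
  calc _ ≤ ((m + V.card * (2 * m) : ℕ) : ℝ) := by exact_mod_cast hcard
    _ = m + V.card * (2 * m) := by push_cast; ring
    _ ≤ m + (C3 * Y * (E * (Y * H) ^ η)) * (2 * m) := by
        gcongr
        exact hVc.trans (by gcongr)
    _ = m * 1 + 2 * m * (C3 * E) * (Y * (Y * H) ^ η) := by ring
    _ ≤ (m + 1) * (Y * (Y * H) ^ η) + 2 * m * (C3 * E) * (Y * (Y * H) ^ η) := by
        gcongr
        linarith
    _ = _ := by ring

/-- Few coefficient vectors are degenerate (Schwartz and Zippel). -/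
theorem degenerate_count (hm : m ≠ 0) : ∃ C : ℝ, 0 < C ∧ ∀ H : ℕ, 1 ≤ H →
    (((Fintype.piFinset (fun _ : Fin (m + 1) => Finset.Icc (-(H : ℤ)) H)).filter
      (fun b => Mv b = 0)).card : ℝ) ≤ C * (H : ℝ) ^ m := by
  classical
  refine ⟨((MU m).totalDegree + 1) * 3 ^ m, by positivity, ?_⟩
  intro H hH
  have hH1 : (1 : ℝ) ≤ H := by exact_mod_cast hH
  have h := MvPolynomial.schwartz_zippel_totalDegree (MU_ne_zero hm) (Finset.Icc (-(H : ℤ)) H)
  have hcS : (Finset.Icc (-(H : ℤ)) H).card = 2 * H + 1 := by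
    rw [Int.card_Icc]
    omega
  rw [hcS] at h
  have heq : (Fintype.piFinset (fun _ : Fin (m + 1) => Finset.Icc (-(H : ℤ)) H)).filter
      (fun b => Mv b = 0) = (Fintype.piFinset (fun _ : Fin (m + 1) => Finset.Icc (-(H : ℤ)) H)).filter
      (fun b => MvPolynomial.eval b (MU m) = 0) := by
    apply Finset.filter_congr
    intro b _
    rw [Mv_eq]
  rw [heq]
  set N := ((Fintype.piFinset (fun _ : Fin (m + 1) => Finset.Icc (-(H : ℤ)) H)).filter
      (fun b => MvPolynomial.eval b (MU m) = 0)).card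
  have h2 : (N : ℝ) / ((2 * H + 1 : ℕ) : ℝ) ^ (m + 1) ≤ ((MU m).totalDegree : ℝ) /
      ((2 * H + 1 : ℕ) : ℝ) := by
    have h3 := (NNRat.cast_le (K := ℝ)).mpr h
    push_cast at h3 ⊢
    exact h3
  have hpos : (0 : ℝ) < ((2 * H + 1 : ℕ) : ℝ) := by positivity
  rw [div_le_iff₀ (by positivity)] at h2
  calc (N : ℝ) ≤ ((MU m).totalDegree : ℝ) / ((2 * H + 1 : ℕ) : ℝ) *
        ((2 * H + 1 : ℕ) : ℝ) ^ (m + 1) := h2
    _ = ((MU m).totalDegree : ℝ) * ((2 * H + 1 : ℕ) : ℝ) ^ m := by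
        rw [pow_succ]
        field_simp
    _ ≤ ((MU m).totalDegree + 1 : ℝ) * (3 * (H : ℝ)) ^ m := by
        gcongr
        · linarith
        · push_cast
          linarith
    _ = _ := by rw [mul_pow]; ring

end Pool.Agent.Helper5Frey
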