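import Mathlib

/-!
# Moments on the unit disc and quadratic forms
-/

namespace Pool.Agent.Helper5Frey

open MeasureTheory Metric ComplexConjugate

/-- Multiplication by a complex number of modulus one preserves integrals. -/
lemma integral_rot (f : ℂ → ℂ) (ω : ℂ) (hω : ‖ω‖ = 1) :
    ∫ z : ℂ, f (ω * z) = ∫ z : ℂ, f z := by
  have h := (rotation (⟨ω, by simp [Submonoid.unitSphere, hω]⟩ : Circle)).measurePreserving.integral_comp
    (rotation (⟨ω, by simp [Submonoid.unitSphere, hω]⟩ : Circle)).toHomeomorph.measurableEmbedding f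
  simpa using h

/-- Off-diagonal moments of the unit disc vanish. -/
lemma moment_offdiag {i j : ℕ} (hij : i ≠ j) :
    ∫ z : ℂ, z ^ i * conj z ^ j * (((ball (0 : ℂ) 1).indicator (fun _ => (1 : ℝ)) z : ℝ) : ℂ) = 0 := by
  wlog hlt : j < i generalizing i j with H
  · have h1 := H (i := j) (j := i) hij.symm (by omega)
    have h2 := congrArg conj h1
    rw [← integral_conj, map_zero] at h2
    refine Eq.trans ?_ h2
    congr 1
    ext z
    simp only [map_mul, map_pow, Complex.conj_conj, Complex.conj_ofReal]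
    ring
  · set k := i - j with hk
    have hk0 : 0 < k := by omega
    set ω : ℂ := Complex.exp (((Real.pi / k : ℝ) : ℂ) * Complex.I) with hωdef
    have hω : ‖ω‖ = 1 := Complex.norm_exp_ofReal_mul_I _
    have hωk : ω ^ k = -1 := by
      rw [hωdef, ← Complex.exp_nat_mul]
      have : (k : ℂ) * (((Real.pi / k : ℝ) : ℂ) * Complex.I) = Real.pi * Complex.I := by
        have hk' : (k : ℂ) ≠ 0 := by exact_mod_cast hk0.ne'
        push_cast
        field_simp
      rw [this, Complex.exp_pi_mul_I]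
    have hωω : ω * conj ω = 1 := by
      rw [Complex.mul_conj, Complex.normSq_eq_norm_sq, hω]
      simp
    have hrot := integral_rot (fun z : ℂ => z ^ i * conj z ^ j *
      (((ball (0 : ℂ) 1).indicator (fun _ => (1 : ℝ)) z : ℝ) : ℂ)) ω hω
    have hpt : ∀ z : ℂ, (ω * z) ^ i * conj (ω * z) ^ j *
      (((ball (0 : ℂ) 1).indicator (fun _ => (1 : ℝ)) (ω * z) : ℝ) : ℂ) =
        -(z ^ i * conj z ^ j *
      (((ball (0 : ℂ) 1).indicator (fun _ => (1 : ℝ)) z : ℝ) : ℂ)) := by
      intro z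
      have hind : (ball (0 : ℂ) 1).indicator (fun _ => (1 : ℝ)) (ω * z) =
          (ball (0 : ℂ) 1).indicator (fun _ => (1 : ℝ)) z := by
        simp only [Set.indicator, mem_ball_zero_iff, norm_mul, hω, one_mul]
      rw [hind, map_mul, mul_pow, mul_pow]
      have hi : i = k + j := by omega
      have : ω ^ i * conj ω ^ j = -1 := by
        rw [hi, pow_add, hωk, mul_assoc, ← mul_pow, hωω]
        simp
      calc ω ^ i * z ^ i * (conj ω ^ j * conj z ^ j) *
            (((ball (0 : ℂ) 1).indicator (fun _ => (1 : ℝ)) z : ℝ) : ℂ) =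
            (ω ^ i * conj ω ^ j) * (z ^ i * conj z ^ j *
            (((ball (0 : ℂ) 1).indicator (fun _ => (1 : ℝ)) z : ℝ) : ℂ)) := by ring
        _ = _ := by rw [this]; ring
    simp only [hpt] at hrot
    rw [integral_neg] at hrot
    have h2 : (2 : ℂ) * ∫ z : ℂ, z ^ i * conj z ^ j *
      (((ball (0 : ℂ) 1).indicator (fun _ => (1 : ℝ)) z : ℝ) : ℂ) = 0 := by
      linear_combination (-1 : ℂ) * hrot
    exact (mul_eq_zero.mp h2).resolve_left two_ne_zero

/-- Expansion of the quadratic form. -/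
lemma form_eq {g : ℕ} (ρ : ℂ → ℝ)
    (hint : ∀ i j : Fin g, Integrable (fun z : ℂ => z ^ (i : ℕ) * conj z ^ (j : ℕ) * (ρ z : ℂ)))
    (w : Fin g → ℂ) :
    ∑ i, ∑ j, w i * conj (w j) * ∫ z : ℂ, z ^ (i : ℕ) * conj z ^ (j : ℕ) * (ρ z : ℂ) =
      ((∫ z : ℂ, ‖∑ i, w i * z ^ (i : ℕ)‖ ^ 2 * ρ z : ℝ) : ℂ) := by
  have h1 : ∀ i j : Fin g, w i * conj (w j) *
      ∫ z : ℂ, z ^ (i : ℕ) * conj z ^ (j : ℕ) * (ρ z : ℂ) =
      ∫ z : ℂ, w i * conj (w j) * (z ^ (i : ℕ) * conj z ^ (j : ℕ) * (ρ z : ℂ)) := by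
    intro i j
    rw [integral_const_mul]
  simp only [h1]
  have h2 : ∀ i : Fin g, ∑ j, ∫ z : ℂ, w i * conj (w j) *
      (z ^ (i : ℕ) * conj z ^ (j : ℕ) * (ρ z : ℂ)) = ∫ z : ℂ, ∑ j, w i * conj (w j) *
      (z ^ (i : ℕ) * conj z ^ (j : ℕ) * (ρ z : ℂ)) := by
    intro i
    rw [integral_finsetSum]
    intro j _
    exact (hint i j).const_mul _
  simp only [h2]
  rw [← integral_finsetSum]
  · rw [← integral_complex_ofReal]
    congr 1
    ext z
    have h3 : ((‖∑ i, w i * z ^ (i : ℕ)‖ : ℝ) : ℂ) ^ 2 =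
        (∑ i, w i * z ^ (i : ℕ)) * conj (∑ i, w i * z ^ (i : ℕ)) := by
      rw [Complex.mul_conj, Complex.normSq_eq_norm_sq]
      push_cast
      rfl
    push_cast
    rw [h3, map_sum, Finset.sum_mul_sum, Finset.sum_mul]
    apply Finset.sum_congr rfl
    intro i _
    rw [Finset.sum_mul]
    apply Finset.sum_congr rfl
    intro j _
    simp only [map_mul, map_pow]
    ring
  · intro i _
    apply integrable_finsetSum
    intro j _
    exact (hint i j).const_mul _

lemma integrable_ball_moment (i j : ℕ) : Integrable (fun z : ℂ => z ^ i * conj z ^ j *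
    (((ball (0 : ℂ) 1).indicator (fun _ => (1 : ℝ)) z : ℝ) : ℂ)) := by
  have h1 : (fun z : ℂ => z ^ i * conj z ^ j *
      (((ball (0 : ℂ) 1).indicator (fun _ => (1 : ℝ)) z : ℝ) : ℂ)) =
      (ball (0 : ℂ) 1).indicator (fun z : ℂ => z ^ i * conj z ^ j) := by
    ext z
    by_cases hz : z ∈ ball (0 : ℂ) 1
    · simp [Set.indicator_of_mem hz]
    · simp [Set.indicator_of_notMem hz]
  rw [h1, integrable_indicator_iff measurableSet_ball]
  have hc : Continuous (fun z : ℂ => z ^ i * conj z ^ j) := by fun_prop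
  exact (hc.continuousOn.integrableOn_compact (isCompact_closedBall (0 : ℂ) 1)).mono_set
    ball_subset_closedBall

/-- Lower bound for the `L²` norm on the unit disc of a polynomial with given coefficients. -/
theorem disc_lower (g : ℕ) : ∃ c : ℝ, 0 < c ∧ ∀ w : Fin g → ℂ,
    c * ∑ i, ‖w i‖ ^ 2 ≤
      ∫ z : ℂ, ‖∑ i, w i * z ^ (i : ℕ)‖ ^ 2 * (ball (0 : ℂ) 1).indicator (fun _ => (1 : ℝ)) z := by
  set μ : ℕ → ℝ := fun i => ∫ z : ℂ, ‖z ^ i‖ ^ 2 *
    (ball (0 : ℂ) 1).indicator (fun _ => (1 : ℝ)) z with hμ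
  have hμI : ∀ i : ℕ, ∫ z : ℂ, z ^ i * conj z ^ i *
      (((ball (0 : ℂ) 1).indicator (fun _ => (1 : ℝ)) z : ℝ) : ℂ) = (μ i : ℂ) := by
    intro i
    rw [hμ]
    simp only
    rw [← integral_complex_ofReal]
    congr 1
    ext z
    rw [norm_pow]
    push_cast
    rw [← mul_pow, Complex.mul_conj, Complex.normSq_eq_norm_sq]
    push_cast
    ring
  have hint : ∀ i : ℕ, Integrable (fun z : ℂ => ‖z ^ i‖ ^ 2 *
    (ball (0 : ℂ) 1).indicator (fun _ => (1 : ℝ)) z) := by
    intro i
    have := (integrable_ball_moment i i).norm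
    refine this.congr (Filter.Eventually.of_forall fun z => ?_)
    by_cases hz : z ∈ ball (0 : ℂ) 1
    · simp [Set.indicator_of_mem hz]
      ring
    · simp [Set.indicator_of_notMem hz]
  have hμpos : ∀ i, 0 < μ i := by
    intro i
    rw [hμ]
    simp only
    rw [integral_pos_iff_support_of_nonneg _ (hint i)]
    · have hsub : ball (0 : ℂ) 1 \ {0} ⊆ Function.support (fun z : ℂ => ‖z ^ i‖ ^ 2 *
          (ball (0 : ℂ) 1).indicator (fun _ => (1 : ℝ)) z) := by
        intro z hz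
        rw [Function.mem_support, Set.indicator_of_mem hz.1]
        have h0 : z ≠ 0 := by simpa using hz.2
        have h1 : (0 : ℝ) < ‖z ^ i‖ := norm_pos_iff.mpr (pow_ne_zero _ h0)
        positivity
      refine lt_of_lt_of_le ?_ (measure_mono hsub)
      rw [measure_sdiff_null (by simp)]
      exact measure_ball_pos _ _ one_pos
    · intro z
      apply mul_nonneg (by positivity)
      apply Set.indicator_nonneg
      intro _ _
      norm_num
  have hform : ∀ w : Fin g → ℂ, ∫ z : ℂ, ‖∑ i, w i * z ^ (i : ℕ)‖ ^ 2 *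
      (ball (0 : ℂ) 1).indicator (fun _ => (1 : ℝ)) z = ∑ i, ‖w i‖ ^ 2 * μ i := by
    intro w
    have h1 := form_eq (fun z => (ball (0 : ℂ) 1).indicator (fun _ => (1 : ℝ)) z)
      (fun i j : Fin g => integrable_ball_moment i j) w
    have h2 : ∑ i, ∑ j, w i * conj (w j) * ∫ z : ℂ, z ^ (i : ℕ) * conj z ^ (j : ℕ) *
        (((ball (0 : ℂ) 1).indicator (fun _ => (1 : ℝ)) z : ℝ) : ℂ) =
        ((∑ i, ‖w i‖ ^ 2 * μ i : ℝ) : ℂ) := by
      push_cast
      apply Finset.sum_congr rfl
      intro i _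
      rw [Finset.sum_eq_single i]
      · rw [hμI, Complex.mul_conj, Complex.normSq_eq_norm_sq]
        push_cast
        rfl
      · intro j _ hj
        rw [moment_offdiag (fun h => hj (Fin.ext h.symm)), mul_zero]
      · intro h
        exact absurd (Finset.mem_univ _) h
    rw [h2] at h1
    exact_mod_cast h1.symm
  rcases Nat.eq_zero_or_pos g with h0 | hpos
  · subst h0
    refine ⟨1, one_pos, fun w => ?_⟩
    rw [hform]
    simp
  · obtain ⟨i0, _, hi0⟩ := Finset.exists_min_image (Finset.range g) μ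
      ⟨0, Finset.mem_range.mpr hpos⟩
    refine ⟨μ i0, hμpos i0, fun w => ?_⟩
    rw [hform, Finset.mul_sum]
    apply Finset.sum_le_sum
    intro i _
    rw [mul_comm]
    apply mul_le_mul_of_nonneg_left _ (by positivity)
    exact hi0 i (Finset.mem_range.mpr i.2)

end Pool.Agent.Helper5Frey
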