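import Pool.Agent.Helper5_Frey.Box

/-!
# Monic polynomials and pencils
-/

namespace Pool.Agent.Helper5Frey

open MeasureTheory Polynomial

/-- The universal modulus specialised to monic polynomials. -/
noncomputable def MQ (m : ℕ) : MvPolynomial (Fin m) ℤ :=
  MvPolynomial.aeval (Fin.snoc (α := fun _ => MvPolynomial (Fin m) ℤ) MvPolynomial.X 1) (MU m)

lemma MQ_eval {m : ℕ} (b' : Fin m → ℤ) :
    MvPolynomial.eval b' (MQ m) = Mv (Fin.snoc (α := fun _ => ℤ) b' 1) := by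
  rw [Mv_eq]
  unfold MQ
  have h := MvPolynomial.comp_aeval_apply
    (Fin.snoc (α := fun _ => MvPolynomial (Fin m) ℤ) MvPolynomial.X 1)
    (MvPolynomial.aeval (R := ℤ) b') (MU m)
  have h1 : ∀ q : MvPolynomial (Fin m) ℤ, MvPolynomial.eval b' q = MvPolynomial.aeval b' q := by
    intro q
    exact (DFunLike.congr_fun (MvPolynomial.coe_aeval_eq_eval b') q).symm
  have h2 : ∀ q : MvPolynomial (Fin (m + 1)) ℤ,
      MvPolynomial.eval (Fin.snoc (α := fun _ => ℤ) b' 1) q =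
        MvPolynomial.aeval (Fin.snoc (α := fun _ => ℤ) b' 1) q := by
    intro q
    exact (DFunLike.congr_fun (MvPolynomial.coe_aeval_eq_eval
      (Fin.snoc (α := fun _ => ℤ) b' 1)) q).symm
  rw [h1, h2, h]
  congr 2
  ext i
  refine Fin.lastCases ?_ (fun i => ?_) i
  · simp
  · simp

lemma MQ_ne_zero {m : ℕ} (hm : m ≠ 0) : MQ m ≠ 0 := by
  intro h0
  have h := MvPolynomial.comp_aeval_apply
    (Fin.snoc (α := fun _ => MvPolynomial (Fin m) ℤ) MvPolynomial.X 1)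
    (MvPolynomial.aeval (R := ℤ) (fun i : Fin m => bC m i.castSucc)) (MU m)
  have h1 : MvPolynomial.aeval (Fin.snoc (α := fun _ => MvPolynomial (Fin m) ℤ)
      MvPolynomial.X 1) (MU m) = 0 := h0
  rw [h1, map_zero] at h
  have h2 : (fun i => (MvPolynomial.aeval (R := ℤ) (fun i : Fin m => bC m i.castSucc))
      (Fin.snoc (α := fun _ => MvPolynomial (Fin m) ℤ) MvPolynomial.X 1 i)) = bC m := by
    ext i
    refine Fin.lastCases ?_ (fun i => ?_) i
    · simp [bC]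
    · simp
  rw [h2] at h
  have h3 : MvPolynomial.aeval (R := ℤ) (bC m) (MU m) =
      2 * ((m + 1 : ℕ) : ℂ) * bC m (Fin.last m) * D2 (bC m) := by
    unfold MU
    rw [map_mul, map_mul, map_mul, MvPolynomial.aeval_X]
    have h4 := D2_map (MvPolynomial.aeval (R := ℤ) (bC m)).toRingHom (bU m)
    have h5 : (fun i => (MvPolynomial.aeval (R := ℤ) (bC m)).toRingHom (bU m i)) = bC m := by
      ext i
      simp [bU]
    rw [h5] at h4
    have h6 : (MvPolynomial.aeval (R := ℤ) (bC m)) (D2 (bU m)) = D2 (bC m) := h4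
    rw [h6]
    simp
  rw [h3] at h
  have hlast : bC m (Fin.last m) = 1 := by simp [bC]
  rw [hlast] at h
  have hD := D2_bC_ne_zero (m := m) hm
  have hm1 : ((m + 1 : ℕ) : ℂ) ≠ 0 := by exact_mod_cast Nat.succ_ne_zero m
  exact mul_ne_zero (mul_ne_zero (mul_ne_zero two_ne_zero hm1) one_ne_zero) hD h.symm

/-- Degenerate monic polynomials in a weighted box are rare. -/
theorem degenerate_count_monic {m : ℕ} (hm : m ≠ 0) : ∃ C : ℝ, 0 < C ∧ ∀ H : ℕ, 1 ≤ H →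
    ∀ T : Finset (Fin (m + 1) → ℤ),
      (∀ b ∈ T, b (Fin.last m) = 1 ∧ (∀ i : Fin m, (b i.castSucc).natAbs ≤ H ^ (m - (i : ℕ))) ∧
        Mv b = 0) →
      (T.card : ℝ) * H ≤ C * ∏ i : Fin m, ((2 * H ^ (m - (i : ℕ)) + 1 : ℕ) : ℝ) := by
  classical
  refine ⟨(∑ i, ((MQ m).degreeOf i : ℝ)) + 1, by positivity, ?_⟩
  intro H hH T hT
  have hH1 : (1 : ℝ) ≤ H := by exact_mod_cast hH
  have hH0 : (0 : ℝ) < H := by linarith
  set S : Fin m → Finset ℤ := fun i =>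
    Finset.Icc (-((H ^ (m - (i : ℕ)) : ℕ) : ℤ)) ((H ^ (m - (i : ℕ)) : ℕ) : ℤ) with hS
  have hcS : ∀ i, (S i).card = 2 * H ^ (m - (i : ℕ)) + 1 := by
    intro i
    rw [hS]
    simp only
    rw [Int.card_Icc]
    omega
  have hSZ := MvPolynomial.schwartz_zippel_sum_degreeOf (MQ_ne_zero hm) S
  set N := ((Fintype.piFinset S).filter (fun x => MvPolynomial.eval x (MQ m) = 0)).card with hN
  have hTN : T.card ≤ N := by
    rw [hN]
    apply Finset.card_le_card_of_injOn (fun b => Fin.init b)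
    · intro b hb
      obtain ⟨h1, h2, h3⟩ := hT b hb
      rw [Finset.mem_coe, Finset.mem_filter, Fintype.mem_piFinset]
      refine ⟨fun i => ?_, ?_⟩
      · rw [hS, Finset.mem_Icc]
        have := h2 i
        simp only [Fin.init]
        omega
      · rw [MQ_eval, ← h1, Fin.snoc_init_self]
        exact h3
    · intro b hb b' hb' h
      rw [← Fin.snoc_init_self b, ← Fin.snoc_init_self b', (hT b hb).1, (hT b' hb').1]
      simp only at h
      rw [h]
  have h2 : (N : ℝ) / ∏ i, (((S i).card : ℕ) : ℝ) ≤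
      ∑ i, ((MQ m).degreeOf i : ℝ) / (((S i).card : ℕ) : ℝ) := by
    have h3 := (NNRat.cast_le (K := ℝ)).mpr hSZ
    push_cast at h3
    exact h3
  have hP : 0 < ∏ i, (((S i).card : ℕ) : ℝ) := by
    apply Finset.prod_pos
    intro i _
    rw [hcS]
    positivity
  rw [div_le_iff₀ hP] at h2
  have h4 : ∑ i, ((MQ m).degreeOf i : ℝ) / (((S i).card : ℕ) : ℝ) ≤
      (∑ i, ((MQ m).degreeOf i : ℝ)) / H := by
    rw [Finset.sum_div]
    apply Finset.sum_le_sum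
    intro i _
    apply div_le_div_of_nonneg_left (by positivity) hH0
    rw [hcS]
    have h5 : H ≤ H ^ (m - (i : ℕ)) := Nat.le_self_pow (by have := i.2; omega) H
    have h6 : H ≤ 2 * H ^ (m - (i : ℕ)) + 1 := by omega
    exact_mod_cast h6
  have hTNr : (T.card : ℝ) ≤ N := by exact_mod_cast hTN
  simp only [hcS] at h2 h4 hP
  calc (T.card : ℝ) * H ≤ N * H := by gcongr
    _ ≤ ((∑ i, ((MQ m).degreeOf i : ℝ)) / H * ∏ i : Fin m,
        ((2 * H ^ (m - (i : ℕ)) + 1 : ℕ) : ℝ)) * H := by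
        gcongr
        exact h2.trans (by gcongr)
    _ = (∑ i, ((MQ m).degreeOf i : ℝ)) * ∏ i : Fin m,
        ((2 * H ^ (m - (i : ℕ)) + 1 : ℕ) : ℝ) := by
        field_simp
    _ ≤ _ := by
        gcongr
        linarith

lemma prod_box_le (m H : ℕ) (hH : 1 ≤ H) :
    ∏ i : Fin m, ((2 * H ^ (m - (i : ℕ)) + 1 : ℕ) : ℝ) ≤
      3 ^ m * (H : ℝ) ^ (((m * (m + 1) : ℕ) : ℝ) / 2) := by
  have hH1 : (1 : ℝ) ≤ H := by exact_mod_cast hH
  have hH0 : (0 : ℝ) < H := by linarith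
  induction m with
  | zero => simp
  | succ k ih =>
    rw [Fin.prod_univ_succ]
    simp only [Fin.val_zero, Fin.val_succ]
    have h1 : ∀ i : Fin k, k + 1 - ((i : ℕ) + 1) = k - (i : ℕ) := fun i => by omega
    simp only [h1]
    have h2 : ((2 * H ^ (k + 1 - 0) + 1 : ℕ) : ℝ) ≤ 3 * (H : ℝ) ^ ((k + 1 : ℕ) : ℝ) := by
      rw [Real.rpow_natCast]
      push_cast
      have : (1 : ℝ) ≤ (H : ℝ) ^ (k + 1) := one_le_pow₀ hH1
      linarith
    calc _ ≤ (3 * (H : ℝ) ^ ((k + 1 : ℕ) : ℝ)) * (3 ^ k * (H : ℝ) ^ (((k * (k + 1) : ℕ) : ℝ) / 2)) := by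
          gcongr
      _ = 3 ^ (k + 1) * ((H : ℝ) ^ ((k + 1 : ℕ) : ℝ) * (H : ℝ) ^ (((k * (k + 1) : ℕ) : ℝ) / 2)) := by
          ring
      _ = _ := by
          rw [← Real.rpow_add hH0]
          congr 2
          push_cast
          ring

/-- **The inequality for monic polynomials.** -/
theorem monic_frey {m : ℕ} (hm : 2 ≤ m) {C₀ : ℝ} (hC₀ : HeightBound (m + 1) (m / 2) C₀)
    {κ η : ℝ} (hκ : 0 < κ) (hη : 0 < η) : ∃ C : ℝ, 0 < C ∧ ∀ H : ℕ, 1 ≤ H →
    ∀ T : Finset (Fin (m + 2) → ℤ),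
      (∀ a ∈ T, a (Fin.last (m + 1)) = 1 ∧
        (∀ i : Fin (m + 1), (a i.castSucc).natAbs ≤ H ^ (m + 1 - (i : ℕ))) ∧
        ¬ FreyHolds (m + 1) κ C₀ (poly a)) →
      (T.card : ℝ) ≤ C * ((H : ℝ) ^ ((((m + 1) * (m + 2) : ℕ) : ℝ) / 2 - 1) +
        (H : ℝ) ^ ((((m + 1) * (m + 2) : ℕ) : ℝ) / 2 - ((m + 1 : ℕ) : ℝ) +
          (((m + 1 - (m / 2 + 1)) * (m / 2) : ℕ) : ℝ) / (2 * κ) + η)) := by
  classical
  set g : ℕ := m / 2 with hg
  set η' : ℝ := η / (m + 1) with hη'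
  have hη'0 : 0 < η' := by positivity
  obtain ⟨C1, hC1, hline⟩ := line_frey hm hC₀ hκ hη'0
  obtain ⟨C2, hC2, hdeg⟩ := degenerate_count_monic (m := m) (by omega)
  refine ⟨3 ^ m * C1 + 3 ^ (m + 1) * C2, by positivity, ?_⟩
  intro H hH T hT
  have hH1 : (1 : ℝ) ≤ H := by exact_mod_cast hH
  have hH0 : (0 : ℝ) < H := by linarith
  set K : ℕ := H ^ (m + 1) with hK
  have hK1 : 1 ≤ K := Nat.one_le_pow _ _ hH
  set S : Fin (m + 2) → Finset ℤ := fun j => if j = Fin.last (m + 1) then {1} else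
    Finset.Icc (-((H ^ (m + 1 - (j : ℕ)) : ℕ) : ℤ)) ((H ^ (m + 1 - (j : ℕ)) : ℕ) : ℤ) with hS
  have hSlast : S (Fin.last (m + 1)) = {1} := by simp [hS]
  have hScast : ∀ i : Fin (m + 1), S i.castSucc =
      Finset.Icc (-((H ^ (m + 1 - (i : ℕ)) : ℕ) : ℤ)) ((H ^ (m + 1 - (i : ℕ)) : ℕ) : ℤ) := by
    intro i
    rw [hS]
    simp only
    rw [if_neg (Fin.castSucc_lt_last i).ne]
    simp
  have hS0 : S 0 = Finset.Icc (-(K : ℤ)) K := by
    have := hScast 0
    simpa [hK] using this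
  set P : (Fin (m + 2) → ℤ) → Prop := fun a => ¬ FreyHolds (m + 1) κ C₀ (poly a) with hP
  have hTsub : T ⊆ (Fintype.piFinset S).filter P := by
    intro a ha
    obtain ⟨h1, h2, h3⟩ := hT a ha
    rw [Finset.mem_filter, Fintype.mem_piFinset]
    refine ⟨fun j => ?_, h3⟩
    refine Fin.lastCases ?_ (fun i => ?_) j
    · rw [hSlast, h1]
      simp
    · rw [hScast, Finset.mem_Icc]
      have := h2 i
      omega
  set Bx := Fintype.piFinset (fun i : Fin (m + 1) => S i.succ) with hBx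
  -- description of the box of tails
  have hBxmem : ∀ b ∈ Bx, b (Fin.last m) = 1 ∧
      ∀ i : Fin m, (b i.castSucc).natAbs ≤ H ^ (m - (i : ℕ)) := by
    intro b hb
    rw [hBx, Fintype.mem_piFinset] at hb
    constructor
    · have := hb (Fin.last m)
      rw [Fin.succ_last, hSlast, Finset.mem_singleton] at this
      exact this
    · intro i
      have := hb i.castSucc
      rw [Fin.succ_castSucc, hScast, Finset.mem_Icc] at this
      simp only [Fin.val_succ] at this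
      have h1 : m + 1 - ((i : ℕ) + 1) = m - (i : ℕ) := by omega
      rw [h1] at this
      omega
  have hBxc : (Bx.card : ℝ) ≤ ∏ i : Fin m, ((2 * H ^ (m - (i : ℕ)) + 1 : ℕ) : ℝ) := by
    rw [hBx, Fintype.card_piFinset, Fin.prod_univ_castSucc]
    simp only [Fin.succ_last, hSlast, Finset.card_singleton, mul_one, Fin.succ_castSucc, hScast]
    push_cast
    apply le_of_eq
    apply Finset.prod_congr rfl
    intro i _
    rw [Int.card_Icc]
    simp only [Fin.val_succ]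
    have h1 : m + 1 - ((i : ℕ) + 1) = m - (i : ℕ) := by omega
    rw [h1]
    have h2 : (((H ^ (m - (i : ℕ)) : ℕ) : ℤ) + 1 - -((H ^ (m - (i : ℕ)) : ℕ) : ℤ)).toNat =
        2 * H ^ (m - (i : ℕ)) + 1 := by omega
    have h3 : (((H : ℤ) ^ (m - (i : ℕ))) + 1 - -((H : ℤ) ^ (m - (i : ℕ)))).toNat =
        2 * H ^ (m - (i : ℕ)) + 1 := by
      rw [← h2]
      push_cast
      rfl
    rw [h3]
    push_cast
    ring
  have hprod := prod_box_le m H hH
  set θ : ℝ := ((g : ℕ) : ℝ) / (2 * κ) with hθ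
  have hfib : ∀ b ∈ Bx, Mv b ≠ 0 →
      (((S 0).filter (fun c => P (Fin.cons c b : Fin (m + 2) → ℤ))).card : ℝ) ≤
        C1 * (H : ℝ) ^ ((((m + 1 - (g + 1)) * g : ℕ) : ℝ) / (2 * κ) + η) := by
    intro b hb hM
    obtain ⟨hb1, hb2⟩ := hBxmem b hb
    rw [hS0]
    have h1 := hline b hM K hK1 H hH1 (by
      intro i
      refine Fin.lastCases ?_ (fun i => ?_) i
      · rw [hb1, hK]
        simp
      · have h2 := hb2 i
        have h3 : |(b i.castSucc : ℝ)| ≤ (H : ℝ) ^ (m - (i : ℕ)) := by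
          have h4 : ((b i.castSucc).natAbs : ℝ) = |(b i.castSucc : ℝ)| := by
            rw [← Int.cast_abs, Int.abs_eq_natAbs]
            rfl
          rw [← h4]
          exact_mod_cast h2
        calc |(b i.castSucc : ℝ)| * (H : ℝ) ^ ((i.castSucc : ℕ) + 1)
            ≤ (H : ℝ) ^ (m - (i : ℕ)) * (H : ℝ) ^ ((i : ℕ) + 1) := by
              gcongr
              simp
          _ = ((K : ℕ) : ℝ) := by
              rw [← pow_add, hK]
              push_cast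
              congr 1
              have := i.2
              omega) ((Finset.Icc (-(K : ℤ)) K).filter
        (fun c => P (Fin.cons c b : Fin (m + 2) → ℤ))) (Finset.filter_subset _ _)
      (fun c hc => (Finset.mem_filter.mp hc).2)
    refine h1.trans (le_of_eq ?_)
    have h5 : ((K : ℕ) : ℝ) / (H : ℝ) ^ (g + 1) = (H : ℝ) ^ (m + 1 - (g + 1)) := by
      rw [hK]
      push_cast
      rw [div_eq_iff (by positivity), ← pow_add]
      congr 1
      omega
    have hKr : ((K : ℕ) : ℝ) = (H : ℝ) ^ (m + 1) := by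
      rw [hK]
      push_cast
      rfl
    rw [h5, hKr]
    generalize m + 1 - (g + 1) = d
    rw [← Real.rpow_natCast (H : ℝ) d, ← Real.rpow_natCast (H : ℝ) (m + 1),
      ← Real.rpow_mul hH0.le, ← Real.rpow_mul hH0.le, mul_assoc, ← Real.rpow_add hH0, hη', hθ]
    congr 2
    push_cast
    field_simp
  have hle : (T.card : ℝ) ≤ ∑ b ∈ Bx,
      (((S 0).filter (fun c => P (Fin.cons c b : Fin (m + 2) → ℤ))).card : ℝ) := by
    have h1 := (Finset.card_le_card hTsub).trans (card_box_le S P)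
    exact_mod_cast h1
  set F : ℝ := C1 * (H : ℝ) ^ ((((m + 1 - (g + 1)) * g : ℕ) : ℝ) / (2 * κ) + η) with hF
  have hF0 : 0 ≤ F := by positivity
  have hK3 : ((2 * K + 1 : ℕ) : ℝ) ≤ 3 * (H : ℝ) ^ (m + 1) := by
    rw [hK]
    push_cast
    have : (1 : ℝ) ≤ (H : ℝ) ^ (m + 1) := one_le_pow₀ hH1
    linarith
  have hsplit : ∑ b ∈ Bx,
      (((S 0).filter (fun c => P (Fin.cons c b : Fin (m + 2) → ℤ))).card : ℝ) ≤
      ∑ b ∈ Bx, (F + if Mv b = 0 then ((2 * K + 1 : ℕ) : ℝ) else 0) := by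
    apply Finset.sum_le_sum
    intro b hb
    split_ifs with h0
    · have h2 : (((S 0).filter
        (fun c => P (Fin.cons c b : Fin (m + 2) → ℤ))).card : ℝ) ≤ ((2 * K + 1 : ℕ) : ℝ) := by
        have h3 : (S 0).card = 2 * K + 1 := by
          rw [hS0, Int.card_Icc]
          omega
        rw [← h3]
        exact_mod_cast Finset.card_filter_le _ _
      linarith
    · rw [add_zero]
      exact hfib b hb h0
  have hdegH := hdeg H hH (Bx.filter (fun b => Mv b = 0)) (by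
    intro b hb
    rw [Finset.mem_filter] at hb
    obtain ⟨h1, h2⟩ := hBxmem b hb.1
    exact ⟨h1, h2, hb.2⟩)
  set Dg : ℝ := ((Bx.filter (fun b => Mv b = 0)).card : ℝ) with hDg
  set E : ℝ := (H : ℝ) ^ (((m * (m + 1) : ℕ) : ℝ) / 2) with hE
  have hE0 : 0 ≤ E := by positivity
  have hD1 : Dg * H ≤ C2 * (3 ^ m * E) := hdegH.trans (by gcongr)
  have hBxE : (Bx.card : ℝ) ≤ 3 ^ m * E := hBxc.trans hprod
  calc (T.card : ℝ) ≤ ∑ b ∈ Bx, (F + if Mv b = 0 then ((2 * K + 1 : ℕ) : ℝ) else 0) :=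
        hle.trans hsplit
    _ = (Bx.card : ℝ) * F + Dg * ((2 * K + 1 : ℕ) : ℝ) := by
        rw [Finset.sum_add_distrib, Finset.sum_const, nsmul_eq_mul, ← Finset.sum_filter,
          Finset.sum_const, nsmul_eq_mul]
    _ ≤ (3 ^ m * E) * F + Dg * (3 * (H : ℝ) ^ (m + 1)) := by
        gcongr
    _ = (3 ^ m * E) * F + (Dg * H) * (3 * (H : ℝ) ^ m) := by ring
    _ ≤ (3 ^ m * E) * F + (C2 * (3 ^ m * E)) * (3 * (H : ℝ) ^ m) := by gcongr
    _ = 3 ^ m * C1 * (E * (H : ℝ) ^ ((((m + 1 - (g + 1)) * g : ℕ) : ℝ) / (2 * κ) + η)) +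
        3 ^ (m + 1) * C2 * (E * (H : ℝ) ^ (m : ℝ)) := by
        rw [hF, Real.rpow_natCast]
        ring
    _ = 3 ^ m * C1 * (H : ℝ) ^ ((((m + 1) * (m + 2) : ℕ) : ℝ) / 2 - ((m + 1 : ℕ) : ℝ) +
          (((m + 1 - (g + 1)) * g : ℕ) : ℝ) / (2 * κ) + η) +
        3 ^ (m + 1) * C2 * (H : ℝ) ^ ((((m + 1) * (m + 2) : ℕ) : ℝ) / 2 - 1) := by
        rw [hE, ← Real.rpow_add hH0, ← Real.rpow_add hH0]
        congr 3
        · push_cast
          ring
        · push_cast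
          ring
    _ ≤ _ := by
        have e1 : 0 ≤ (H : ℝ) ^ ((((m + 1) * (m + 2) : ℕ) : ℝ) / 2 - 1) := by positivity
        have e2 : 0 ≤ (H : ℝ) ^ ((((m + 1) * (m + 2) : ℕ) : ℝ) / 2 - ((m + 1 : ℕ) : ℝ) +
          (((m + 1 - (g + 1)) * g : ℕ) : ℝ) / (2 * κ) + η) := by positivity
        have e3 : 0 ≤ 3 ^ m * C1 := by positivity
        have e4 : 0 ≤ 3 ^ (m + 1) * C2 := by positivity
        nlinarith [mul_nonneg e3 e1, mul_nonneg e4 e2]

/-- **The inequality in a pencil** `f + c`. -/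
theorem pencil_frey {m : ℕ} (hm : 2 ≤ m) {C₀ : ℝ} (hC₀ : HeightBound (m + 1) (m / 2) C₀)
    (b : Fin (m + 1) → ℤ) (hM : Mv b ≠ 0) {κ η : ℝ} (hκ : 0 < κ) (hη : 0 < η) :
    ∃ C : ℝ, 0 < C ∧ ∀ H : ℕ, 1 ≤ H → ∀ s : Finset ℤ, s ⊆ Finset.Icc (-(H : ℤ)) H →
        (∀ c ∈ s, ¬ FreyHolds (m + 1) κ C₀ (poly (Fin.cons c b : Fin (m + 2) → ℤ))) →
        (s.card : ℝ) ≤ C * (H : ℝ) ^ ((1 - ((m / 2 + 1 : ℕ) : ℝ) / ((m + 1 : ℕ) : ℝ)) *
          (((m / 2 : ℕ) : ℝ) / (2 * κ)) + η) := by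
  classical
  set g : ℕ := m / 2 with hg
  obtain ⟨C1, hC1, hline⟩ := line_frey hm hC₀ hκ hη
  set L : ℕ := 1 + ∑ i, (b i).natAbs with hL
  have hL1 : 1 ≤ L := by omega
  have hbL : ∀ i, (b i).natAbs ≤ L := by
    intro i
    have := Finset.single_le_sum (f := fun i => (b i).natAbs) (fun i _ => Nat.zero_le _)
      (Finset.mem_univ i)
    rw [hL]
    omega
  set θ : ℝ := ((g : ℕ) : ℝ) / (2 * κ) with hθ
  have hθ0 : 0 ≤ θ := by positivity
  refine ⟨C1 * (L : ℝ) ^ θ * (L : ℝ) ^ η, by positivity, ?_⟩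
  intro H hH s hs hbad
  have hH1 : (1 : ℝ) ≤ H := by exact_mod_cast hH
  have hH0 : (0 : ℝ) < H := by linarith
  have hL0 : (0 : ℝ) < L := by exact_mod_cast hL1
  have hL1r : (1 : ℝ) ≤ L := by exact_mod_cast hL1
  set ρ : ℝ := (H : ℝ) ^ (1 / ((m + 1 : ℕ) : ℝ)) with hρ
  have hn0 : (0 : ℝ) < ((m + 1 : ℕ) : ℝ) := by positivity
  have hρ1 : 1 ≤ ρ := Real.one_le_rpow hH1 (by positivity)
  have hρ0 : 0 < ρ := by linarith
  have hρn : ρ ^ (m + 1) = H := by
    rw [hρ, ← Real.rpow_natCast, ← Real.rpow_mul hH0.le, one_div_mul_cancel hn0.ne',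
      Real.rpow_one]
  have h1 := hline b hM (L * H) (Nat.mul_pos hL1 hH) ρ hρ1 (by
    intro i
    have h2 : |(b i : ℝ)| ≤ L := by
      have h4 : ((b i).natAbs : ℝ) = |(b i : ℝ)| := by
        rw [← Int.cast_abs, Int.abs_eq_natAbs]
        rfl
      rw [← h4]
      exact_mod_cast hbL i
    have h3 : ρ ^ ((i : ℕ) + 1) ≤ H := by
      rw [← hρn]
      apply pow_le_pow_right₀ hρ1
      have := i.2
      omega
    push_cast
    gcongr) s (by
      intro c hc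
      have := hs hc
      rw [Finset.mem_Icc] at this ⊢
      have h5 : (H : ℤ) ≤ ((L * H : ℕ) : ℤ) := by
        exact_mod_cast Nat.le_mul_of_pos_left H hL1
      constructor
      · omega
      · omega) hbad
  refine h1.trans (le_of_eq ?_)
  have h6 : (((L * H : ℕ) : ℝ)) / ρ ^ (g + 1) =
      L * (H : ℝ) ^ (1 - ((g + 1 : ℕ) : ℝ) / ((m + 1 : ℕ) : ℝ)) := by
    rw [Real.rpow_sub hH0, Real.rpow_one]
    have h7 : ρ ^ (g + 1) = (H : ℝ) ^ (((g + 1 : ℕ) : ℝ) / ((m + 1 : ℕ) : ℝ)) := by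
      rw [hρ, ← Real.rpow_natCast, ← Real.rpow_mul hH0.le]
      congr 1
      field_simp
    rw [h7]
    push_cast
    ring
  rw [h6, Real.mul_rpow hL0.le (by positivity), ← Real.rpow_mul hH0.le]
  push_cast
  rw [Real.mul_rpow hL0.le hH0.le, Real.rpow_add hH0]
  ring

end Pool.Agent.Helper5Frey
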