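import Pool.Agent.Helper5_Frey.Defs

/-!
# The resultant of `f₀'` and `f₀ + T`
-/

namespace Pool.Agent.Helper5Frey

open Polynomial

section basic

variable {A B : Type*} [CommRing A] [CommRing B] {m : ℕ}

/-- The polynomial `∑ b i X ^ (i + 1)`. -/
noncomputable def f0 (b : Fin (m + 1) → A) : A[X] :=
  ∑ i : Fin (m + 1), C (b i) * X ^ ((i : ℕ) + 1)

lemma f0_map (φ : A →+* B) (b : Fin (m + 1) → A) : (f0 b).map φ = f0 (fun i => φ (b i)) := by
  simp [f0, Polynomial.map_sum]

lemma f0_natDegree_le (b : Fin (m + 1) → A) : (f0 b).natDegree ≤ m + 1 := by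
  unfold f0
  apply natDegree_sum_le_of_forall_le
  intro i _
  refine (natDegree_C_mul_X_pow_le _ _).trans ?_
  have := i.2
  omega

lemma f0_coeff_last (b : Fin (m + 1) → A) : (f0 b).coeff (m + 1) = b (Fin.last m) := by
  unfold f0
  rw [finsetSum_coeff, Finset.sum_eq_single (Fin.last m)]
  · simp
  · intro i _ hi
    rw [coeff_C_mul_X_pow, if_neg]
    intro h
    apply hi
    apply Fin.ext
    simp
    omega
  · intro h
    exact absurd (Finset.mem_univ _) h

lemma deriv_natDegree_le (b : Fin (m + 1) → A) : (derivative (f0 b)).natDegree ≤ m := by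
  have := natDegree_derivative_le (f0 b)
  have := f0_natDegree_le b
  omega

lemma deriv_coeff_last (b : Fin (m + 1) → A) :
    (derivative (f0 b)).coeff m = ((m + 1 : ℕ) : A) * b (Fin.last m) := by
  rw [coeff_derivative, f0_coeff_last]
  push_cast
  ring

lemma f0_add_natDegree_le (b : Fin (m + 1) → A) (c : A) :
    (f0 b + C c).natDegree ≤ m + 1 := by
  apply natDegree_add_le_of_degree_le (f0_natDegree_le b)
  simp

lemma f0_add_coeff_last (b : Fin (m + 1) → A) (c : A) :
    (f0 b + C c).coeff (m + 1) = b (Fin.last m) := by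
  rw [coeff_add, f0_coeff_last, coeff_C_succ, add_zero]

/-- `R(T) = Res(f₀', f₀ + T)`. -/
noncomputable def RT (b : Fin (m + 1) → A) : A[X] :=
  resultant ((derivative (f0 b)).map C) ((f0 b).map C + C X) m (m + 1)

lemma RT_map (φ : A →+* B) (b : Fin (m + 1) → A) :
    (RT b).map φ = RT (fun i => φ (b i)) := by
  unfold RT
  rw [← coe_mapRingHom, ← resultant_map_map, ← f0_map, derivative_map, Polynomial.map_map,
    Polynomial.map_add, Polynomial.map_map, Polynomial.map_map, Polynomial.map_map, map_C]
  have h : (mapRingHom φ).comp C = (C : B →+* B[X]).comp φ := by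
    ext x
    simp
  rw [h, coe_mapRingHom, Polynomial.map_X]

lemma RT_eval (b : Fin (m + 1) → A) (c : A) :
    (RT b).eval c = resultant (derivative (f0 b)) (f0 b + C c) m (m + 1) := by
  unfold RT
  rw [← coe_evalRingHom, ← resultant_map_map, Polynomial.map_map,
    Polynomial.map_add, Polynomial.map_map, map_C]
  have h : (evalRingHom c).comp C = RingHom.id A := by
    ext x
    simp
  rw [h, coe_evalRingHom, eval_X, Polynomial.map_id, Polynomial.map_id]

/-- `F' p + F q = R(c)`. -/
lemma RT_bezout (b : Fin (m + 1) → A) (c : A) :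
    ∃ p q : A[X], derivative (f0 b + C c) * p + (f0 b + C c) * q = C ((RT b).eval c) := by
  obtain ⟨p, q, _, _, h⟩ := exists_mul_add_mul_eq_C_resultant (m := m) (n := m + 1) (derivative (f0 b))
    (f0 b + C c) (deriv_natDegree_le b) (f0_add_natDegree_le b c) (Or.inr (by omega))
  refine ⟨p, q, ?_⟩
  rw [RT_eval, ← h]
  simp

/-- `Δ₂ = Res(R, R')`. -/
noncomputable def D2 (b : Fin (m + 1) → A) : A :=
  resultant (RT b) (derivative (RT b)) m (m - 1)

lemma D2_map (φ : A →+* B) (b : Fin (m + 1) → A) :
    φ (D2 b) = D2 (fun i => φ (b i)) := by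
  unfold D2
  rw [← resultant_map_map, ← RT_map, derivative_map]

end basic

section field

variable {K : Type*} [Field K] [IsAlgClosed K] {m : ℕ}

omit [IsAlgClosed K] in
lemma deriv_natDegree_eq (b : Fin (m + 1) → K)
    (h : ((m + 1 : ℕ) : K) * b (Fin.last m) ≠ 0) : (derivative (f0 b)).natDegree = m := by
  apply le_antisymm (deriv_natDegree_le b)
  apply le_natDegree_of_ne_zero
  rwa [deriv_coeff_last]

omit [IsAlgClosed K] in
lemma deriv_leadingCoeff_eq (b : Fin (m + 1) → K)
    (h : ((m + 1 : ℕ) : K) * b (Fin.last m) ≠ 0) :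
    (derivative (f0 b)).leadingCoeff = ((m + 1 : ℕ) : K) * b (Fin.last m) := by
  rw [leadingCoeff, deriv_natDegree_eq b h, deriv_coeff_last]

lemma RT_prod (b : Fin (m + 1) → K) (h : ((m + 1 : ℕ) : K) * b (Fin.last m) ≠ 0) :
    RT b = C ((((m + 1 : ℕ) : K) * b (Fin.last m)) ^ (m + 1)) *
      ((derivative (f0 b)).roots.map (fun ξ => X + C ((f0 b).eval ξ))).prod := by
  have hsp : (derivative (f0 b)).Splits := IsAlgClosed.splits _
  have hCinj : Function.Injective (C : K →+* K[X]) := C_injective
  have h1 : ((derivative (f0 b)).map (C : K →+* K[X])).natDegree = m := by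
    rw [natDegree_map_eq_of_injective hCinj, deriv_natDegree_eq b h]
  have h2 : ((derivative (f0 b)).map (C : K →+* K[X])).leadingCoeff =
      C (((m + 1 : ℕ) : K) * b (Fin.last m)) := by
    rw [leadingCoeff_map_of_injective hCinj, deriv_leadingCoeff_eq b h]
  have h3 : ((f0 b).map (C : K →+* K[X]) + C X).natDegree ≤ m + 1 := by
    apply natDegree_add_le_of_degree_le
    · exact natDegree_map_le.trans (f0_natDegree_le b)
    · simp
  have h4 := resultant_eq_prod_eval ((derivative (f0 b)).map (C : K →+* K[X]))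
    ((f0 b).map (C : K →+* K[X]) + C X) (m + 1) h3 (hsp.map _)
  rw [h1, h2] at h4
  unfold RT
  rw [h4]
  have h5 : ((derivative (f0 b)).map (C : K →+* K[X])).roots =
      (derivative (f0 b)).roots.map C := by
    rw [← roots_map_of_injective_of_card_eq_natDegree hCinj]
    exact hsp.natDegree_eq_card_roots.symm
  rw [h5, Multiset.map_map, map_pow]
  congr 2
  apply Multiset.map_congr rfl
  intro ξ _
  simp [eval_map, eval₂_at_apply]
  ring

lemma RT_natDegree_leadingCoeff (b : Fin (m + 1) → K)
    (h : ((m + 1 : ℕ) : K) * b (Fin.last m) ≠ 0) :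
    (RT b).natDegree = m ∧
      (RT b).leadingCoeff = (((m + 1 : ℕ) : K) * b (Fin.last m)) ^ (m + 1) := by
  have hsp : (derivative (f0 b)).Splits := IsAlgClosed.splits _
  have hmon : ((derivative (f0 b)).roots.map (fun ξ => X + C ((f0 b).eval ξ))).prod.Monic := by
    apply monic_multiset_prod_of_monic
    intro ξ _
    exact monic_X_add_C _
  have hu : (((m + 1 : ℕ) : K) * b (Fin.last m)) ^ (m + 1) ≠ 0 := pow_ne_zero _ h
  constructor
  · rw [RT_prod b h, natDegree_C_mul hu, natDegree_multiset_prod_of_monic]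
    · rw [Multiset.map_map]
      simp only [Function.comp_def, natDegree_X_add_C]
      rw [Multiset.map_const', Multiset.sum_replicate, ← hsp.natDegree_eq_card_roots,
        deriv_natDegree_eq b h]
      simp
    · intro f hf
      rw [Multiset.mem_map] at hf
      obtain ⟨ξ, _, rfl⟩ := hf
      exact monic_X_add_C _
  · rw [RT_prod b h, leadingCoeff_mul, hmon.leadingCoeff, mul_one, leadingCoeff_C]

/-- If `Δ₂ ≠ 0` then `R` and `R'` have no common root. -/
lemma D2_no_common_root (b : Fin (m + 1) → K) (hm : m ≠ 0)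
    (h : ((m + 1 : ℕ) : K) * b (Fin.last m) ≠ 0) (hD : D2 b ≠ 0) (t : K)
    (h1 : (RT b).eval t = 0) (h2 : (derivative (RT b)).eval t = 0) : False := by
  have hd := (RT_natDegree_leadingCoeff b h).1
  have hd' : (derivative (RT b)).natDegree ≤ m - 1 := by
    have := natDegree_derivative_le (RT b)
    omega
  obtain ⟨p, q, _, _, e⟩ := exists_mul_add_mul_eq_C_resultant (m := m) (n := m - 1) (RT b)
    (derivative (RT b)) hd.le hd' (Or.inl hm)
  apply hD
  have := congrArg (eval t) e
  simpa [h1, h2, D2] using this.symm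

/-- The key local statement: exactly one double root, the others simple. -/
theorem card_roots_eq [DecidableEq K] (b : Fin (m + 1) → K) (hm : m ≠ 0)
    (h : ((m + 1 : ℕ) : K) * b (Fin.last m) ≠ 0) (hD : D2 b ≠ 0) (c : K)
    (hc : (RT b).eval c = 0) : (f0 b + C c).roots.toFinset.card = m := by
  set F := f0 b + C c with hF
  have hF' : derivative F = derivative (f0 b) := by simp [hF]
  have hlast : b (Fin.last m) ≠ 0 := right_ne_zero_of_mul h
  have hFdeg : F.natDegree = m + 1 := by
    apply le_antisymm (f0_add_natDegree_le b c)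
    apply le_natDegree_of_ne_zero
    rw [f0_add_coeff_last]
    exact hlast
  have hF0 : F ≠ 0 := by
    intro h0
    rw [h0] at hFdeg
    simp at hFdeg
  have hdF0 : derivative F ≠ 0 := by
    intro h0
    rw [hF'] at h0
    have := deriv_coeff_last b
    rw [h0] at this
    simp only [coeff_zero] at this
    exact h this.symm
  have hprod := RT_prod b h
  have hu : (((m + 1 : ℕ) : K) * b (Fin.last m)) ^ (m + 1) ≠ 0 := pow_ne_zero _ h
  have hev : ∀ ξ, F.eval ξ = c + (f0 b).eval ξ := by
    intro ξ
    simp [hF]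
    ring
  -- a root of the derivative where F vanishes
  have hex : ∃ ξ ∈ (derivative (f0 b)).roots, F.eval ξ = 0 := by
    rw [hprod, eval_mul, eval_C] at hc
    have h0 := (mul_eq_zero.mp hc).resolve_left hu
    rw [eval_multiset_prod, Multiset.prod_eq_zero_iff, Multiset.map_map, Multiset.mem_map] at h0
    obtain ⟨ξ, hξ, h1⟩ := h0
    refine ⟨ξ, hξ, ?_⟩
    rw [hev]
    simpa using h1
  obtain ⟨ξ, hξ, hFξ⟩ := hex
  obtain ⟨S, hS⟩ := Multiset.exists_cons_of_mem hξ
  have hfac : (X : K[X]) + C ((f0 b).eval ξ) = X - C c := by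
    have : (f0 b).eval ξ = - c := by
      have := hev ξ
      rw [hFξ] at this
      linear_combination (-1 : K) * this
    rw [this]
    simp
    ring
  have huniq : ∀ ζ ∈ S, F.eval ζ ≠ 0 := by
    intro ζ hζ h0
    obtain ⟨S', hS'⟩ := Multiset.exists_cons_of_mem hζ
    have hfac' : (X : K[X]) + C ((f0 b).eval ζ) = X - C c := by
      have : (f0 b).eval ζ = - c := by
        have := hev ζ
        rw [h0] at this
        linear_combination (-1 : K) * this
      rw [this]
      simp
      ring
    have hRT : ∃ Q : K[X], RT b = (X - C c) * (X - C c) * Q := by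
      rw [hS, hS', Multiset.map_cons, Multiset.map_cons, Multiset.prod_cons, Multiset.prod_cons,
        hfac, hfac'] at hprod
      rw [hprod]
      exact ⟨C ((((m + 1 : ℕ) : K) * b (Fin.last m)) ^ (m + 1)) *
        (S'.map (fun ξ => X + C ((f0 b).eval ξ))).prod, by ring⟩
    obtain ⟨Q, hQ⟩ := hRT
    apply D2_no_common_root b hm h hD c hc
    rw [hQ]
    simp
  have hξS : ξ ∉ S := fun hmem => huniq ξ hmem hFξ
  have hcount1 : (derivative F).rootMultiplicity ξ = 1 := by
    rw [← count_roots, hF', hS, Multiset.count_cons_self, Multiset.count_eq_zero.mpr hξS]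
  have hdFξ : (derivative F).eval ξ = 0 := by
    rw [hF']
    exact (mem_roots'.mp hξ).2
  have hge2 : 1 < F.rootMultiplicity ξ :=
    (one_lt_rootMultiplicity_iff_isRoot hF0).mpr ⟨hFξ, hdFξ⟩
  have hle2 : F.rootMultiplicity ξ ≤ 2 := by
    by_contra hcon
    push Not at hcon
    have hdvd : (X - C ξ) ^ 3 ∣ F := (le_rootMultiplicity_iff hF0).mp hcon
    obtain ⟨Q, hQ⟩ := hdvd
    have hdvd2 : (X - C ξ) ^ 2 ∣ derivative F := by
      rw [hQ]
      refine ⟨3 * Q + (X - C ξ) * derivative Q, ?_⟩
      simp only [derivative_mul, derivative_pow, derivative_sub, derivative_X, derivative_C]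
      have h3 : (C (3 : K) : K[X]) = 3 := map_ofNat C 3
      simp only [Nat.cast_ofNat, h3]
      ring
    have := (le_rootMultiplicity_iff hdF0).mpr hdvd2
    omega
  have hm2 : F.rootMultiplicity ξ = 2 := by omega
  have hother : ∀ r ∈ F.roots.toFinset, r ≠ ξ → F.rootMultiplicity r = 1 := by
    intro r hr hne
    rw [Multiset.mem_toFinset, mem_roots hF0] at hr
    have hpos : 0 < F.rootMultiplicity r := (rootMultiplicity_pos hF0).mpr hr
    have hnot : ¬ 1 < F.rootMultiplicity r := by
      intro hlt
      have h1 := ((one_lt_rootMultiplicity_iff_isRoot hF0).mp hlt).2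
      have h2 : r ∈ (derivative (f0 b)).roots := by
        rw [← hF', mem_roots hdF0]
        exact h1
      rw [hS, Multiset.mem_cons] at h2
      rcases h2 with h2 | h2
      · exact hne h2
      · exact huniq r h2 hr
    omega
  have hξmem : ξ ∈ F.roots.toFinset := by
    rw [Multiset.mem_toFinset, mem_roots hF0]
    exact hFξ
  have hsum : ∑ r ∈ F.roots.toFinset, F.roots.count r = m + 1 := by
    rw [Multiset.toFinset_sum_count_eq, ← hFdeg]
    exact (IsAlgClosed.splits F).natDegree_eq_card_roots.symm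
  rw [← Finset.add_sum_erase _ _ hξmem, count_roots, hm2] at hsum
  have hsum2 : ∑ r ∈ F.roots.toFinset.erase ξ, F.roots.count r =
      (F.roots.toFinset.erase ξ).card := by
    rw [Finset.card_eq_sum_ones]
    apply Finset.sum_congr rfl
    intro r hr
    rw [Finset.mem_erase] at hr
    rw [count_roots]
    exact hother r hr.2 hr.1
  rw [hsum2, Finset.card_erase_of_mem hξmem] at hsum
  have : 0 < F.roots.toFinset.card := Finset.card_pos.mpr ⟨ξ, hξmem⟩
  omega

/-- Conversely, fewer than `m + 1` distinct roots force `R(c) = 0`. -/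
theorem RT_eval_eq_zero_of_card [DecidableEq K] (b : Fin (m + 1) → K) (c : K) (hlast : b (Fin.last m) ≠ 0)
    (hcard : (f0 b + C c).roots.toFinset.card < m + 1) : (RT b).eval c = 0 := by
  set F := f0 b + C c with hF
  have hFdeg : F.natDegree = m + 1 := by
    apply le_antisymm (f0_add_natDegree_le b c)
    apply le_natDegree_of_ne_zero
    rw [f0_add_coeff_last]
    exact hlast
  have hF0 : F ≠ 0 := by
    intro h0
    rw [h0] at hFdeg
    simp at hFdeg
  have hcr : F.roots.card = m + 1 := by
    rw [← hFdeg]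
    exact (IsAlgClosed.splits F).natDegree_eq_card_roots.symm
  have hnd : ¬ F.roots.Nodup := by
    intro hnd
    rw [Multiset.toFinset_card_of_nodup hnd, hcr] at hcard
    omega
  rw [Multiset.nodup_iff_count_le_one] at hnd
  push Not at hnd
  obtain ⟨r, hr⟩ := hnd
  rw [count_roots] at hr
  obtain ⟨h1, h2⟩ := (one_lt_rootMultiplicity_iff_isRoot hF0).mp hr
  obtain ⟨p, q, hpq⟩ := RT_bezout b c
  have := congrArg (eval r) hpq
  rw [← hF] at this
  simp only [eval_add, eval_mul, eval_C] at this
  rw [h1.eq_zero, h2.eq_zero] at this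
  simpa using this.symm

end field

end Pool.Agent.Helper5Frey
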